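import Pool.Agent.Q155.Mel.Scale

/-!
Asymptotics of `EE p s θ = ∫ max (p (θ + y) - s |sin y|) 0`.
-/

set_option autoImplicit false
open MeasureTheory Set Filter Topology

namespace Pool.Agent.Q155.Mel

/-- the excess -/
noncomputable def EE (p : ℝ → ℝ) (s θ : ℝ) : ℝ :=
  ∫ y in (-(Real.pi / 2))..(Real.pi / 2), max (p (θ + y) - s * |Real.sin y|) 0

/-- weighted excess with constant numerator -/
noncomputable def ek (k : ℝ) (s c : ℝ) : ℝ :=
  ∫ y in (-(Real.pi / 2))..(Real.pi / 2), Real.cos (k * y) * max (c - s * |Real.sin y|) 0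

theorem EE_nonneg (p : ℝ → ℝ) (s θ : ℝ) : 0 ≤ EE p s θ := by
  unfold EE
  apply intervalIntegral.integral_nonneg (by linarith [Real.pi_pos])
  intro y _
  exact le_max_right _ _

theorem lim_EE {p : ℝ → ℝ} (hp : Continuous p) {M : ℝ} (hM : 0 < M) (h0 : ∀ θ, 0 ≤ p θ)
    (hb : ∀ θ, p θ ≤ M) (θ : ℝ) :
    Tendsto (fun s => s * EE p s θ) atTop (𝓝 (p θ ^ 2)) := by
  have hpi := Real.pi_pos
  have hpi3 := Real.pi_gt_three
  have key := scale_lim (fun s z => max (p (θ + z / s) - s * |Real.sin (z / s)|) 0)
    (fun _ => 1) (fun z => if |z| < p θ then p θ - |z| else 0) (Real.pi * M) M (p θ)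
    (by positivity) ?_ ?_ ?_ ?_
  · have h1 : ∫ z in (-(Real.pi * M))..(Real.pi * M), (if |z| < p θ then p θ - |z| else 0) =
        p θ ^ 2 := by
      have h2 : p θ ≤ Real.pi * M := (hb θ).trans (by nlinarith)
      rw [int_cut (fun x => p θ - x) (by fun_prop) (h0 θ) h2]
      rw [intervalIntegral.integral_sub (by simp) (by simp)]
      simp
      ring
    rw [h1] at key
    refine Tendsto.congr' ?_ key
    filter_upwards [eventually_gt_atTop 0] with s hs
    simp only [one_mul, mul_div_cancel_left₀ _ hs.ne', EE]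
  · intro s; fun_prop
  · filter_upwards [eventually_gt_atTop 0] with s hs z hz1 hz2
    apply max_eq_right
    have := sin_low hs hz1 hz2
    linarith [hb (θ + z / s)]
  · filter_upwards [eventually_gt_atTop 0] with s hs z hz
    rw [one_mul, abs_of_nonneg (le_max_right _ _)]
    apply max_le _ hM.le
    have : 0 ≤ s * |Real.sin (z / s)| := by positivity
    linarith [hb (θ + z / s)]
  · intro z _ hz
    simp only [one_mul]
    have h1 : Tendsto (fun s : ℝ => p (θ + z / s)) atTop (𝓝 (p (θ + 0))) := by
      apply (hp.tendsto _).comp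
      apply tendsto_const_nhds.add
      exact tendsto_const_nhds.div_atTop tendsto_id
    rw [add_zero] at h1
    have h2 := (h1.sub (lim_sin0 z)).max (tendsto_const_nhds (x := (0 : ℝ)))
    refine h2.trans_eq ?_
    congr 1
    split_ifs with h
    · exact max_eq_left (by linarith)
    · exact max_eq_right (by linarith)

/-- comparison of two near arguments -/
theorem lim_EE2 {p : ℝ → ℝ} (hp : Continuous p) {M : ℝ} (hM : 0 < M) (h0 : ∀ θ, 0 ≤ p θ)
    (hb : ∀ θ, p θ ≤ M) (θ : ℝ) (r : ℝ → ℝ) (δ : ℝ) (hr : ∀ᶠ s in atTop, r s ≤ s)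
    (hδ : Tendsto (fun s => s * (s - r s)) atTop (𝓝 δ)) :
    Tendsto (fun s => s ^ 3 * (EE p (r s) θ - EE p s θ)) atTop (𝓝 (δ * p θ ^ 2)) := by
  have hpi := Real.pi_pos
  have hpi3 := Real.pi_gt_three
  -- auxiliary facts about r
  have hδ1 : ∀ᶠ s in atTop, s * (s - r s) ≤ |δ| + 1 := by
    have : δ < |δ| + 1 := by linarith [le_abs_self δ]
    filter_upwards [hδ.eventually (eventually_lt_nhds this)] with s hs using hs.le
  have hr2 : ∀ᶠ s in atTop, s / 2 ≤ r s := by
    filter_upwards [hδ1, eventually_ge_atTop 1, eventually_ge_atTop (2 * (|δ| + 1))] with s h1 h2 h3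
    by_contra h4
    push Not at h4
    have h5 : s * (s / 2) < s * (s - r s) := by
      apply mul_lt_mul_of_pos_left _ (by linarith)
      linarith
    nlinarith
  have hsr : Tendsto (fun s => s - r s) atTop (𝓝 0) := by
    have := hδ.mul (tendsto_inv_atTop_zero (𝕜 := ℝ))
    rw [mul_zero] at this
    refine Tendsto.congr' ?_ this
    filter_upwards [eventually_gt_atTop 0] with s hs
    field_simp
  have key := scale_lim (fun s z => max (p (θ + z / s) - r s * |Real.sin (z / s)|) 0 -
      max (p (θ + z / s) - s * |Real.sin (z / s)|) 0)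
    (fun s => s ^ 2) (fun z => if |z| < p θ then δ * |z| else 0) (Real.pi * M)
    ((|δ| + 1) * (Real.pi * M)) (p θ)
    (by positivity) ?_ ?_ ?_ ?_
  · have h1 : ∫ z in (-(Real.pi * M))..(Real.pi * M), (if |z| < p θ then δ * |z| else 0) =
        δ * p θ ^ 2 := by
      have h2 : p θ ≤ Real.pi * M := (hb θ).trans (by nlinarith)
      rw [int_cut (fun x => δ * x) (by fun_prop) (h0 θ) h2]
      rw [intervalIntegral.integral_const_mul]
      simp
      ring
    rw [h1] at key
    refine Tendsto.congr' ?_ key
    filter_upwards [eventually_gt_atTop 0] with s hs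
    simp only [mul_div_cancel_left₀ _ hs.ne', EE]
    rw [intervalIntegral.integral_sub]
    · ring
    · apply Continuous.intervalIntegrable; fun_prop
    · apply Continuous.intervalIntegrable; fun_prop
  · intro s; fun_prop
  · filter_upwards [eventually_gt_atTop 0, hr2] with s hs hrs z hz1 hz2
    have h3 := sin_low hs hz1 hz2
    have h4 : M ≤ r s * |Real.sin (z / s)| := by
      have h5 : 0 ≤ |Real.sin (z / s)| := abs_nonneg _
      have h6 : s / 2 * |Real.sin (z / s)| ≤ r s * |Real.sin (z / s)| := by gcongr
      linarith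
    rw [max_eq_right, max_eq_right, sub_zero]
    · linarith [hb (θ + z / s)]
    · linarith [hb (θ + z / s)]
  · filter_upwards [eventually_gt_atTop 0, hδ1, hr] with s hs h1 h2 z hz
    rw [abs_mul, abs_of_pos (by positivity : (0 : ℝ) < s ^ 2)]
    have h3 : |max (p (θ + z / s) - r s * |Real.sin (z / s)|) 0 -
      max (p (θ + z / s) - s * |Real.sin (z / s)|) 0| ≤ (s - r s) * |Real.sin (z / s)| := by
      have := abs_max_sub_max_le_abs (p (θ + z / s) - r s * |Real.sin (z / s)|)
        (p (θ + z / s) - s * |Real.sin (z / s)|) 0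
      refine this.trans_eq ?_
      have h4 : p (θ + z / s) - r s * |Real.sin (z / s)| -
        (p (θ + z / s) - s * |Real.sin (z / s)|) = (s - r s) * |Real.sin (z / s)| := by ring
      rw [h4]
      exact abs_of_nonneg (mul_nonneg (by linarith) (abs_nonneg _))
    calc s ^ 2 * |max (p (θ + z / s) - r s * |Real.sin (z / s)|) 0 -
          max (p (θ + z / s) - s * |Real.sin (z / s)|) 0|
        ≤ s ^ 2 * ((s - r s) * |Real.sin (z / s)|) := by gcongr
      _ = (s * (s - r s)) * (s * |Real.sin (z / s)|) := by ring
      _ ≤ (|δ| + 1) * (Real.pi * M) := by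
          apply mul_le_mul h1 ((sin_up hs).trans hz) (by positivity) (by positivity)
  · intro z _ hz
    have h1 : Tendsto (fun s : ℝ => p (θ + z / s)) atTop (𝓝 (p (θ + 0))) := by
      apply (hp.tendsto _).comp
      apply tendsto_const_nhds.add
      exact tendsto_const_nhds.div_atTop tendsto_id
    rw [add_zero] at h1
    have h2 := h1.sub (lim_sin0 z)
    have h3 : Tendsto (fun s : ℝ => (s - r s) * |Real.sin (z / s)|) atTop (𝓝 0) := by
      have h4 : Tendsto (fun s : ℝ => |Real.sin (z / s)|) atTop (𝓝 |Real.sin 0|) := by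
        have : Continuous fun x : ℝ => |Real.sin x| := by fun_prop
        exact (this.tendsto 0).comp (tendsto_const_nhds.div_atTop tendsto_id)
      have := hsr.mul h4
      simpa using this
    have h5 := h2.add h3
    rw [add_zero] at h5
    have h6 : Tendsto (fun s : ℝ => s ^ 2 * ((s - r s) * |Real.sin (z / s)|)) atTop
        (𝓝 (δ * |z|)) := by
      refine (hδ.mul (lim_sin0 z)).congr fun s => ?_
      ring
    rcases lt_or_gt_of_ne hz with h | h
    · rw [if_pos h]
      have h7 : 0 < p θ - |z| := by linarith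
      refine Tendsto.congr' ?_ h6
      filter_upwards [h2.eventually (eventually_gt_nhds h7),
        h5.eventually (eventually_gt_nhds h7)] with s ha hb
      rw [max_eq_left ha.le, max_eq_left]
      · ring
      · linarith
    · rw [if_neg (by linarith)]
      have h7 : p θ - |z| < 0 := by linarith
      refine Tendsto.congr' ?_ tendsto_const_nhds
      filter_upwards [h2.eventually (eventually_lt_nhds h7),
        h5.eventually (eventually_lt_nhds h7)] with s ha hb
      rw [max_eq_right ha.le, max_eq_right]
      · ring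
      · linarith

theorem EE2_bound {p : ℝ → ℝ} (hp : Continuous p) {M : ℝ} (hM : 0 < M)
    (hb : ∀ θ, p θ ≤ M) (θ : ℝ) {r s D : ℝ} (hs : 0 < s) (hr : r ≤ s) (hr2 : s / 2 ≤ r)
    (hD : s * (s - r) ≤ D) :
    |s ^ 3 * (EE p r θ - EE p s θ)| ≤ 2 * (Real.pi * M) * (D * (Real.pi * M)) := by
  have hpi := Real.pi_pos
  have hD0 : 0 ≤ D := le_trans (mul_nonneg hs.le (by linarith)) hD
  -- rewrite as scaled integral
  set F : ℝ → ℝ := fun y => max (p (θ + y) - r * |Real.sin y|) 0 -
      max (p (θ + y) - s * |Real.sin y|) 0 with hF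
  have hFc : Continuous F := by rw [hF]; fun_prop
  have e0 : EE p r θ - EE p s θ = ∫ y in (-(Real.pi / 2))..(Real.pi / 2), F y := by
    simp only [EE, hF]
    rw [intervalIntegral.integral_sub]
    · apply Continuous.intervalIntegrable; fun_prop
    · apply Continuous.intervalIntegrable; fun_prop
  have hF1 : ∀ y, |F y| ≤ (s - r) * |Real.sin y| := by
    intro y
    have := abs_max_sub_max_le_abs (p (θ + y) - r * |Real.sin y|)
      (p (θ + y) - s * |Real.sin y|) 0
    refine this.trans_eq ?_
    have h4 : p (θ + y) - r * |Real.sin y| -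
      (p (θ + y) - s * |Real.sin y|) = (s - r) * |Real.sin y| := by ring
    rw [h4]
    exact abs_of_nonneg (mul_nonneg (by linarith) (abs_nonneg _))
  have hF0 : ∀ y, Real.pi * M / s ≤ |y| → |y| ≤ Real.pi / 2 → F y = 0 := by
    intro y h1 h2
    have h3 := sin_low (M := M) (z := s * y) hs (by
      rw [abs_mul, abs_of_pos hs]
      rw [div_le_iff₀ hs] at h1; linarith) (by
      rw [abs_mul, abs_of_pos hs]; nlinarith)
    rw [mul_div_cancel_left₀ _ hs.ne'] at h3
    have h4 : M ≤ r * |Real.sin y| := by
      have h5 : 0 ≤ |Real.sin y| := abs_nonneg _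
      have h6 : s / 2 * |Real.sin y| ≤ r * |Real.sin y| := by gcongr
      linarith
    simp only [hF]
    rw [max_eq_right, max_eq_right, sub_zero]
    · linarith [hb (θ + y)]
    · linarith [hb (θ + y)]
  have hF2 : ∀ y, |y| ≤ Real.pi / 2 → |F y| ≤ (s - r) * (Real.pi * M / s) := by
    intro y h2
    by_cases h1 : Real.pi * M / s ≤ |y|
    · rw [hF0 y h1 h2, abs_zero]
      exact mul_nonneg (by linarith) (by positivity)
    · push Not at h1
      refine (hF1 y).trans ?_
      have : |Real.sin y| ≤ |y| := Real.abs_sin_le_abs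
      have h3 : |Real.sin y| ≤ Real.pi * M / s := by linarith
      exact mul_le_mul_of_nonneg_left h3 (by linarith)
  rw [abs_mul, abs_of_pos (by positivity : (0 : ℝ) < s ^ 3), e0]
  set R := Real.pi * M / s with hR
  have hR0 : 0 < R := by positivity
  have hgoal : |∫ y in (-(Real.pi / 2))..(Real.pi / 2), F y| ≤ (s - r) * R * (2 * R) := by
    by_cases hc : R ≤ Real.pi / 2
    · have hi : ∀ a b : ℝ, IntervalIntegrable F volume a b := fun a b =>
        hFc.intervalIntegrable a b
      have z1 : ∫ x in (-(Real.pi / 2))..(-R), F x = 0 := by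
        have : ∫ x in (-(Real.pi / 2))..(-R), F x = ∫ x in (-(Real.pi / 2))..(-R), (0 : ℝ) := by
          apply intervalIntegral.integral_congr
          intro z hz'
          rw [uIcc_of_le (by linarith)] at hz'
          apply hF0 z
          · rw [abs_of_nonpos (by linarith [hz'.2])]; linarith [hz'.2]
          · rw [abs_of_nonpos (by linarith [hz'.2])]; linarith [hz'.1]
        rw [this]; simp
      have z2 : ∫ x in R..(Real.pi / 2), F x = 0 := by
        have : ∫ x in R..(Real.pi / 2), F x = ∫ x in R..(Real.pi / 2), (0 : ℝ) := by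
          apply intervalIntegral.integral_congr
          intro z hz'
          rw [uIcc_of_le (by linarith)] at hz'
          apply hF0 z
          · rw [abs_of_nonneg (by linarith [hz'.1])]; linarith [hz'.1]
          · rw [abs_of_nonneg (by linarith [hz'.1])]; linarith [hz'.2]
        rw [this]; simp
      rw [← intervalIntegral.integral_add_adjacent_intervals (hi (-(Real.pi / 2)) (-R))
        (hi (-R) (Real.pi / 2)),
        ← intervalIntegral.integral_add_adjacent_intervals (hi (-R) R)
        (hi R (Real.pi / 2)), z1, z2, zero_add, add_zero]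
      have := intervalIntegral.norm_integral_le_of_norm_le_const (a := -R) (b := R) (f := F)
        (C := (s - r) * R) (by
          intro y hy
          rw [uIoc_of_le (by linarith)] at hy
          exact hF2 y ((abs_le.2 ⟨by linarith [hy.1], hy.2⟩).trans hc))
      rw [Real.norm_eq_abs] at this
      refine this.trans_eq ?_
      rw [abs_of_nonneg (by linarith)]; ring
    · push Not at hc
      have := intervalIntegral.norm_integral_le_of_norm_le_const (a := -(Real.pi / 2))
        (b := Real.pi / 2) (f := F) (C := (s - r) * R) (by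
          intro y hy
          rw [uIoc_of_le (by linarith)] at hy
          exact hF2 y (abs_le.2 ⟨by linarith [hy.1], hy.2⟩))
      rw [Real.norm_eq_abs] at this
      refine this.trans ?_
      rw [abs_of_nonneg (by linarith)]
      apply mul_le_mul_of_nonneg_left (by linarith)
      exact mul_nonneg (by linarith) hR0.le
  calc s ^ 3 * |∫ y in (-(Real.pi / 2))..(Real.pi / 2), F y|
      ≤ s ^ 3 * ((s - r) * R * (2 * R)) := by gcongr
    _ = 2 * (Real.pi * M) * ((s * (s - r)) * (Real.pi * M)) := by
        rw [hR]; field_simp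
    _ ≤ 2 * (Real.pi * M) * (D * (Real.pi * M)) := by gcongr

end Pool.Agent.Q155.Mel
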