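import Pool.Agent.Q155.Mel.Asym

/-!
Asymptotics of `ek k s c`.
-/

set_option autoImplicit false
open MeasureTheory Set Filter Topology

namespace Pool.Agent.Q155.Mel

theorem cube_low {s z : ℝ} (hs : 0 < s) (hz : |z| ≤ Real.pi * s) :
    |z| - s * |Real.sin (z / s)| ≤ |z| ^ 3 / (6 * s ^ 2) := by
  rcases eq_or_ne z 0 with rfl | h0
  · simp
  have hz0 : 0 < |z| := abs_pos.2 h0
  have h4 : 0 < |z| / s := by positivity
  have h5 : |z| / s ≤ Real.pi := by rw [div_le_iff₀ hs]; exact hz
  have h3 : |Real.sin (z / s)| = Real.sin (|z| / s) := by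
    rcases abs_choice z with h | h
    · rw [h] at h4 h5 ⊢
      exact abs_of_nonneg (Real.sin_nonneg_of_nonneg_of_le_pi h4.le h5)
    · rw [h] at h4 h5 ⊢
      have h6 : Real.sin (z / s) = - Real.sin (-z / s) := by
        rw [← Real.sin_neg]; congr 1; ring
      rw [h6, abs_neg]
      exact abs_of_nonneg (Real.sin_nonneg_of_nonneg_of_le_pi h4.le h5)
  have h6 := Real.sin_gt_sub_cube h4
  rw [h3]
  have h7 : s * (|z| / s - (|z| / s) ^ 3 / 6) ≤ s * Real.sin (|z| / s) := by gcongr
  have h8 : s * (|z| / s - (|z| / s) ^ 3 / 6) = |z| - |z| ^ 3 / (6 * s ^ 2) := by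
    field_simp
  linarith

/-- the integrand of the difference -/
noncomputable def df (k c s z : ℝ) : ℝ :=
  Real.cos (k * (z / s)) * max (c - s * |Real.sin (z / s)|) 0 - max (c - |z|) 0

theorem df_bound {k c M s z : ℝ} (hM : 0 < M) (hcM : c ≤ M) (hs : 0 < s)
    (hs1 : M ≤ s) (hz : |z| ≤ Real.pi * M) :
    |s ^ 2 * df k c s z| ≤ (Real.pi * M) ^ 3 / 6 + k ^ 2 * (Real.pi * M) ^ 2 / 2 * M := by
  have hpi := Real.pi_pos
  have hz2 : |z| ≤ Real.pi * s := hz.trans (by gcongr)
  have h1 := cube_low hs hz2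
  have h2 := sin_up (s := s) (z := z) hs
  set A := max (c - s * |Real.sin (z / s)|) 0 with hA
  set B := max (c - |z|) 0 with hB
  have hB0 : 0 ≤ B := le_max_right _ _
  have hBM : B ≤ M := max_le (by linarith [abs_nonneg z]) hM.le
  have hAB : |A - B| ≤ |z| ^ 3 / (6 * s ^ 2) := by
    have := abs_max_sub_max_le_abs (c - s * |Real.sin (z / s)|) (c - |z|) 0
    refine this.trans ?_
    have e : c - s * |Real.sin (z / s)| - (c - |z|) = |z| - s * |Real.sin (z / s)| := by ring
    rw [e, abs_of_nonneg (by linarith)]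
    exact h1
  have hc1 : |Real.cos (k * (z / s)) - 1| ≤ (k * (z / s)) ^ 2 / 2 := by
    rw [abs_sub_comm, abs_of_nonneg (by linarith [Real.cos_le_one (k * (z / s))])]
    linarith [Real.one_sub_sq_div_two_le_cos (x := k * (z / s))]
  have e1 : df k c s z = Real.cos (k * (z / s)) * (A - B) + (Real.cos (k * (z / s)) - 1) * B := by
    simp only [df]; ring
  rw [e1, abs_mul, abs_of_pos (by positivity : (0 : ℝ) < s ^ 2)]
  have h3 : |Real.cos (k * (z / s)) * (A - B) + (Real.cos (k * (z / s)) - 1) * B| ≤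
      |z| ^ 3 / (6 * s ^ 2) + (k * (z / s)) ^ 2 / 2 * M := by
    refine (abs_add_le _ _).trans ?_
    rw [abs_mul, abs_mul, abs_of_nonneg hB0]
    apply add_le_add
    · calc |Real.cos (k * (z / s))| * |A - B| ≤ 1 * |A - B| := by
            gcongr; exact Real.abs_cos_le_one _
        _ ≤ _ := by rw [one_mul]; exact hAB
    · gcongr
  calc s ^ 2 * |Real.cos (k * (z / s)) * (A - B) + (Real.cos (k * (z / s)) - 1) * B|
      ≤ s ^ 2 * (|z| ^ 3 / (6 * s ^ 2) + (k * (z / s)) ^ 2 / 2 * M) := by gcongr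
    _ = |z| ^ 3 / 6 + k ^ 2 * |z| ^ 2 / 2 * M := by
        rw [sq_abs]
        field_simp
    _ ≤ _ := by gcongr

theorem df_zero {k c M s z : ℝ} (hcM : c ≤ M) (hM : 0 < M) (hs : 0 < s)
    (hz : Real.pi * M ≤ |z|) (hz2 : |z| ≤ Real.pi / 2 * s) : df k c s z = 0 := by
  have hpi := Real.pi_gt_three
  have h1 := sin_low hs hz hz2
  have h2 : M ≤ |z| := by nlinarith
  simp only [df]
  rw [max_eq_right (by linarith), max_eq_right (by linarith)]
  ring

theorem df_lim (k c z : ℝ) (hz : |z| ≠ c) :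
    Tendsto (fun s => s ^ 2 * df k c s z) atTop
      (𝓝 (if |z| < c then |z| ^ 3 / 6 - (k * |z|) ^ 2 / 2 * (c - |z|) else 0)) := by
  have h0 := lim_sin0 z
  have h1 : Tendsto (fun s : ℝ => c - s * |Real.sin (z / s)|) atTop (𝓝 (c - |z|)) :=
    tendsto_const_nhds.sub h0
  rcases lt_or_gt_of_ne hz with h | h
  · rw [if_pos h]
    have h2 := lim_sin z
    have h3 := (lim_cos (k * z)).mul h1
    have h4 := h2.add h3
    have e : |z| ^ 3 / 6 + -((k * z) ^ 2 / 2) * (c - |z|) =
        |z| ^ 3 / 6 - (k * |z|) ^ 2 / 2 * (c - |z|) := by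
      rw [mul_pow, mul_pow, sq_abs]; ring
    rw [e] at h4
    refine Tendsto.congr' ?_ h4
    have h7 : 0 < c - |z| := by linarith
    filter_upwards [h1.eventually (eventually_gt_nhds h7)] with s hs
    simp only [df]
    rw [max_eq_left hs.le, max_eq_left h7.le]
    have e2 : k * z / s = k * (z / s) := by ring
    rw [e2]
    ring
  · rw [if_neg (by linarith)]
    have h7 : c - |z| < 0 := by linarith
    refine Tendsto.congr' ?_ tendsto_const_nhds
    filter_upwards [h1.eventually (eventually_lt_nhds h7)] with s hs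
    simp only [df]
    rw [max_eq_right hs.le, max_eq_right h7.le]
    ring

theorem ek_eq {k c M s : ℝ} (hc : 0 ≤ c) (hcM : c ≤ M) (hM : 0 < M) (hs : 0 < s)
    (hs2 : 2 * M ≤ s) :
    s ^ 2 * (s * ek k s c) - s ^ 2 * c ^ 2 =
      ∫ z in (-(Real.pi * M))..(Real.pi * M), s ^ 2 * df k c s z := by
  have hpi := Real.pi_pos
  have hpi3 := Real.pi_gt_three
  have e1 := intervalIntegral.smul_integral_comp_mul_left (a := -(Real.pi / 2))
      (b := Real.pi / 2) (fun z => Real.cos (k * (z / s)) * max (c - s * |Real.sin (z / s)|) 0) s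
  rw [smul_eq_mul] at e1
  simp only [mul_div_cancel_left₀ _ hs.ne'] at e1
  have hek : s * ek k s c = ∫ z in (s * -(Real.pi / 2))..(s * (Real.pi / 2)),
      Real.cos (k * (z / s)) * max (c - s * |Real.sin (z / s)|) 0 := by
    rw [← e1]; rfl
  have hcsq : c ^ 2 = ∫ z in (-(Real.pi / 2 * s))..(Real.pi / 2 * s), max (c - |z|) 0 := by
    have h1 := int_cut (fun x => c - x) (by fun_prop) (R := Real.pi / 2 * s) hc (by nlinarith)
    rw [intervalIntegral.integral_sub (by simp) (by simp)] at h1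
    have h2 : (fun z : ℝ => if |z| < c then c - |z| else 0) = fun z => max (c - |z|) 0 := by
      ext z
      split_ifs with h
      · rw [max_eq_left (by linarith)]
      · rw [max_eq_right (by linarith)]
    rw [h2] at h1
    rw [h1]
    simp
    ring
  have hdfc : Continuous (df k c s) := by unfold df; fun_prop
  have h3 : s * ek k s c - c ^ 2 = ∫ z in (-(Real.pi / 2 * s))..(Real.pi / 2 * s), df k c s z := by
    rw [hek, hcsq]
    have e2 : s * -(Real.pi / 2) = -(Real.pi / 2 * s) := by ring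
    have e3 : s * (Real.pi / 2) = Real.pi / 2 * s := by ring
    rw [e2, e3, ← intervalIntegral.integral_sub]
    · rfl
    · apply Continuous.intervalIntegrable; fun_prop
    · apply Continuous.intervalIntegrable; fun_prop
  have h4 : ∫ z in (-(Real.pi / 2 * s))..(Real.pi / 2 * s), df k c s z =
      ∫ z in (-(Real.pi * M))..(Real.pi * M), df k c s z := by
    have hi : ∀ a b : ℝ, IntervalIntegrable (df k c s) volume a b := fun a b =>
        hdfc.intervalIntegrable a b
    have hle : Real.pi * M ≤ Real.pi / 2 * s := by nlinarith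
    have z1 : ∫ x in (-(Real.pi / 2 * s))..(-(Real.pi * M)), df k c s x = 0 := by
      have : ∫ x in (-(Real.pi / 2 * s))..(-(Real.pi * M)), df k c s x =
          ∫ x in (-(Real.pi / 2 * s))..(-(Real.pi * M)), (0 : ℝ) := by
        apply intervalIntegral.integral_congr
        intro z hz'
        rw [uIcc_of_le (by linarith)] at hz'
        have hneg : z ≤ 0 := by nlinarith [hz'.2]
        apply df_zero hcM hM hs
        · rw [abs_of_nonpos hneg]; linarith [hz'.2]
        · rw [abs_of_nonpos hneg]; linarith [hz'.1]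
      rw [this]; simp
    have z2 : ∫ x in (Real.pi * M)..(Real.pi / 2 * s), df k c s x = 0 := by
      have : ∫ x in (Real.pi * M)..(Real.pi / 2 * s), df k c s x =
          ∫ x in (Real.pi * M)..(Real.pi / 2 * s), (0 : ℝ) := by
        apply intervalIntegral.integral_congr
        intro z hz'
        rw [uIcc_of_le (by linarith)] at hz'
        have hpos : 0 ≤ z := by nlinarith [hz'.1]
        apply df_zero hcM hM hs
        · rw [abs_of_nonneg hpos]; linarith [hz'.1]
        · rw [abs_of_nonneg hpos]; linarith [hz'.2]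
      rw [this]; simp
    rw [← intervalIntegral.integral_add_adjacent_intervals (hi (-(Real.pi / 2 * s))
        (-(Real.pi * M))) (hi (-(Real.pi * M)) (Real.pi / 2 * s)),
        ← intervalIntegral.integral_add_adjacent_intervals (hi (-(Real.pi * M)) (Real.pi * M))
        (hi (Real.pi * M) (Real.pi / 2 * s)), z1, z2, zero_add, add_zero]
  rw [intervalIntegral.integral_const_mul, ← h4, ← h3]
  ring

theorem ek_bound {k c M s : ℝ} (hc : 0 ≤ c) (hcM : c ≤ M) (hM : 0 < M) (hs : 0 < s)
    (hs2 : 2 * M ≤ s) :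
    |s ^ 3 * ek k s c - s ^ 2 * c ^ 2| ≤
      ((Real.pi * M) ^ 3 / 6 + k ^ 2 * (Real.pi * M) ^ 2 / 2 * M) * (2 * (Real.pi * M)) := by
  have hpi := Real.pi_pos
  have e : s ^ 3 * ek k s c - s ^ 2 * c ^ 2 = s ^ 2 * (s * ek k s c) - s ^ 2 * c ^ 2 := by ring
  rw [e, ek_eq hc hcM hM hs hs2]
  have := intervalIntegral.norm_integral_le_of_norm_le_const (a := -(Real.pi * M))
        (b := Real.pi * M) (f := fun z => s ^ 2 * df k c s z)
        (C := (Real.pi * M) ^ 3 / 6 + k ^ 2 * (Real.pi * M) ^ 2 / 2 * M) (by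
          intro y hy
          rw [uIoc_of_le (by linarith [mul_pos hpi hM])] at hy
          exact df_bound hM hcM hs (by linarith) (abs_le.2 ⟨by linarith [hy.1], hy.2⟩))
  rw [Real.norm_eq_abs] at this
  refine this.trans_eq ?_
  congr 1
  rw [abs_of_nonneg]
  · ring
  · linarith [mul_pos hpi hM]

theorem lim_ek (k : ℝ) {c M : ℝ} (hc : 0 ≤ c) (hcM : c ≤ M) (hM : 0 < M) :
    Tendsto (fun s => s ^ 3 * ek k s c - s ^ 2 * c ^ 2) atTop
      (𝓝 ((1 - k ^ 2) * c ^ 4 / 12)) := by
  have hpi := Real.pi_pos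
  have hpi3 := Real.pi_gt_three
  have hint : ∫ z in (-(Real.pi * M))..(Real.pi * M),
      (if |z| < c then |z| ^ 3 / 6 - (k * |z|) ^ 2 / 2 * (c - |z|) else 0) =
      (1 - k ^ 2) * c ^ 4 / 12 := by
    rw [int_cut (fun x => x ^ 3 / 6 - (k * x) ^ 2 / 2 * (c - x)) (by fun_prop) hc (by nlinarith)]
    have e : (fun x : ℝ => x ^ 3 / 6 - (k * x) ^ 2 / 2 * (c - x)) =
        fun x => (1 / 6 + k ^ 2 / 2) * x ^ 3 - (k ^ 2 * c / 2) * x ^ 2 := by
      ext x; ring
    rw [e, intervalIntegral.integral_sub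
      (by apply Continuous.intervalIntegrable; fun_prop)
      (by apply Continuous.intervalIntegrable; fun_prop),
      intervalIntegral.integral_const_mul, intervalIntegral.integral_const_mul,
      integral_pow, integral_pow]
    norm_num
    ring
  rw [← hint]
  have h1 : ∀ᶠ s : ℝ in atTop, ∫ z in (-(Real.pi * M))..(Real.pi * M), s ^ 2 * df k c s z =
      s ^ 3 * ek k s c - s ^ 2 * c ^ 2 := by
    filter_upwards [eventually_gt_atTop 0, eventually_ge_atTop (2 * M)] with s hs hs2
    rw [← ek_eq hc hcM hM hs hs2]; ring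
  refine Tendsto.congr' h1 ?_
  apply intervalIntegral.tendsto_integral_filter_of_dominated_convergence
    (fun _ => (Real.pi * M) ^ 3 / 6 + k ^ 2 * (Real.pi * M) ^ 2 / 2 * M)
  · filter_upwards with s
    have hdfc : Continuous (df k c s) := by unfold df; fun_prop
    exact (hdfc.const_smul (s ^ 2)).aestronglyMeasurable
  · filter_upwards [eventually_gt_atTop 0, eventually_ge_atTop M] with s hs hs2
    filter_upwards with z hz'
    rw [uIoc_of_le (by linarith [mul_pos hpi hM])] at hz'
    exact df_bound hM hcM hs hs2 (abs_le.2 ⟨by linarith [hz'.1], hz'.2⟩)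
  · simp
  · have hc : ∀ᵐ z : ℝ, z ≠ c ∧ z ≠ -c := by
      have h1 : ∀ᵐ z : ℝ, z ≠ c := by
        rw [ae_iff]; simp
      have h2 : ∀ᵐ z : ℝ, z ≠ -c := by
        rw [ae_iff]; simp
      filter_upwards [h1, h2] with z a b using ⟨a, b⟩
    filter_upwards [hc] with z hzc _
    apply df_lim
    intro h
    rcases abs_choice z with h' | h'
    · exact hzc.1 (h' ▸ h)
    · apply hzc.2
      linarith [h' ▸ h]

end Pool.Agent.Q155.Mel
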