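import Mathlib

/-!
A continuous `π`-periodic function whose higher Fourier coefficients vanish is a trigonometric
polynomial.
-/

set_option autoImplicit false
open MeasureTheory Set Filter Topology

namespace Pool.Agent.Q155.Mel

instance factPi : Fact ((0 : ℝ) < Real.pi) := ⟨Real.pi_pos⟩

theorem lift_cont {q : ℝ → ℂ} (hq : Continuous q) (hper : Function.Periodic q Real.pi) :
    Continuous (hper.lift : AddCircle Real.pi → ℂ) := by
  apply Continuous.quotient_lift hq

theorem trig_of_fourier {q : ℝ → ℝ} (hq : Continuous q) (hper : Function.Periodic q Real.pi)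
    (hf : ∀ m : ℤ, m ≠ 0 → m ^ 2 ≠ 1 → ∀ α : ℝ,
      ∫ θ in (0 : ℝ)..Real.pi, Real.cos (2 * m * θ - α) * q θ = 0) :
    ∃ a b c : ℝ, ∀ θ, q θ = a + b * Real.cos (2 * θ) + c * Real.sin (2 * θ) := by
  have hqC : Continuous (fun θ => (q θ : ℂ)) := by fun_prop
  have hperC : Function.Periodic (fun θ => (q θ : ℂ)) Real.pi := by
    intro θ; simp [hper θ]
  set F : C(AddCircle Real.pi, ℂ) := ⟨hperC.lift, lift_cont hqC hperC⟩ with hF
  have hFx : ∀ x : ℝ, F (x : AddCircle Real.pi) = (q x : ℂ) := fun x => hperC.lift_coe x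
  have hcoef : ∀ n : ℤ, n ∉ ({-1, 0, 1} : Finset ℤ) → fourierCoeff F n = 0 := by
    intro n hn
    simp only [Finset.mem_insert, Finset.mem_singleton, not_or] at hn
    rw [fourierCoeff_eq_intervalIntegral F n 0]
    have hn2 : n ^ 2 ≠ 1 := by
      intro h
      have h' : (n - 1) * (n + 1) = 0 := by linear_combination h
      rcases mul_eq_zero.1 h' with h'' | h''
      · exact hn.2.2 (by omega)
      · exact hn.1 (by omega)
    have e : ∀ x : ℝ, fourier (-n) (x : AddCircle Real.pi) • F (x : AddCircle Real.pi) =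
        ((Real.cos (2 * n * x - 0) * q x : ℝ) : ℂ) -
          Complex.I * ((Real.cos (2 * n * x - Real.pi / 2) * q x : ℝ) : ℂ) := by
      intro x
      rw [hFx, fourier_coe_apply, smul_eq_mul]
      have hpi : (Real.pi : ℂ) ≠ 0 := Complex.ofReal_ne_zero.2 Real.pi_ne_zero
      have h1 : 2 * (Real.pi : ℂ) * Complex.I * ((-n : ℤ) : ℂ) * (x : ℂ) / (Real.pi : ℂ) =
          ((-(2 * n * x) : ℝ) : ℂ) * Complex.I := by
        push_cast
        field_simp
      rw [h1, Complex.exp_mul_I, ← Complex.ofReal_cos, ← Complex.ofReal_sin, Real.cos_neg,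
        Real.sin_neg, sub_zero, Real.cos_sub_pi_div_two]
      push_cast
      ring
    simp only [e]
    rw [intervalIntegral.integral_sub, intervalIntegral.integral_const_mul,
      intervalIntegral.integral_ofReal, intervalIntegral.integral_ofReal, zero_add,
      hf n hn.2.1 hn2, hf n hn.2.1 hn2]
    · simp
    · apply Continuous.intervalIntegrable; fun_prop
    · apply Continuous.intervalIntegrable; fun_prop
  have hsum : Summable (fourierCoeff F) :=
    summable_of_ne_finset_zero hcoef
  have hmain : ∀ x : ℝ, (q x : ℂ) = ∑ i ∈ ({-1, 0, 1} : Finset ℤ),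
      fourierCoeff F i • fourier i (x : AddCircle Real.pi) := by
    intro x
    have h1 := has_pointwise_sum_fourier_series_of_summable hsum (x : AddCircle Real.pi)
    have h2 : HasSum (fun i => fourierCoeff F i • fourier i (x : AddCircle Real.pi))
        (∑ i ∈ ({-1, 0, 1} : Finset ℤ), fourierCoeff F i •
          fourier i (x : AddCircle Real.pi)) := by
      apply hasSum_sum_of_ne_finset_zero
      intro b hb
      rw [hcoef b hb, zero_smul]
    have h3 := h1.unique h2
    rw [hFx] at h3
    exact h3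
  set A := fourierCoeff F (-1) with hA
  set B := fourierCoeff F 0 with hB
  set C := fourierCoeff F 1 with hC
  refine ⟨B.re, A.re + C.re, A.im - C.im, fun x => ?_⟩
  have h1 := hmain x
  rw [Finset.sum_insert (by decide), Finset.sum_insert (by decide), Finset.sum_singleton] at h1
  have hpi : (Real.pi : ℂ) ≠ 0 := Complex.ofReal_ne_zero.2 Real.pi_ne_zero
  have e1 : fourier (-1) (x : AddCircle Real.pi) = Complex.cos (2 * x) - Complex.sin (2 * x) * Complex.I := by
    rw [fourier_coe_apply]
    have : 2 * (Real.pi : ℂ) * Complex.I * ((-1 : ℤ) : ℂ) * (x : ℂ) / (Real.pi : ℂ) =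
      (-(2 * x)) * Complex.I := by
      push_cast
      field_simp
    rw [this, Complex.exp_mul_I, Complex.cos_neg, Complex.sin_neg]
    ring
  have e2 : fourier 1 (x : AddCircle Real.pi) = Complex.cos (2 * x) + Complex.sin (2 * x) * Complex.I := by
    rw [fourier_coe_apply]
    have : 2 * (Real.pi : ℂ) * Complex.I * ((1 : ℤ) : ℂ) * (x : ℂ) / (Real.pi : ℂ) =
      (2 * x) * Complex.I := by
      push_cast
      field_simp
    rw [this, Complex.exp_mul_I]
  rw [e1, e2, fourier_zero] at h1
  have h2 : ((q x : ℝ) : ℂ).re = _ := congrArg Complex.re h1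
  rw [Complex.ofReal_re] at h2
  rw [h2]
  have c1 : Complex.cos (2 * (x : ℂ)) = ((Real.cos (2 * x) : ℝ) : ℂ) := by push_cast; rfl
  have c2 : Complex.sin (2 * (x : ℂ)) = ((Real.sin (2 * x) : ℝ) : ℂ) := by push_cast; rfl
  rw [c1, c2]
  simp only [smul_eq_mul, Complex.add_re, Complex.mul_re, Complex.sub_re, Complex.ofReal_re,
    Complex.I_re, Complex.I_im, Complex.ofReal_im, Complex.sub_im, Complex.mul_im, Complex.add_im,
    Complex.one_re, Complex.one_im]
  ring

end Pool.Agent.Q155.Mel
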