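import Pool.Agent.Q155.Mel.Geom
import Pool.Agent.Q155.Mel.Four

/-!
A body whose centred support function has a trigonometric square is an ellipse.
-/

set_option autoImplicit false
open MeasureTheory Set Filter Topology Metric
open Pool.Agent.Y508

namespace Pool.Agent.Q155.Mel

/-- lower triangular linear equivalence -/
noncomputable def TT (α β γ : ℝ) (hα : α ≠ 0) (hγ : γ ≠ 0) : E2 ≃ₗ[ℝ] E2 where
  toFun y := pt (α * y 0) (β * y 0 + γ * y 1)
  map_add' x y := by
    ext i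
    fin_cases i
    · simp [pt]; ring
    · simp [pt]; ring
  map_smul' c y := by
    ext i
    fin_cases i
    · simp [pt]; ring
    · simp [pt]; ring
  invFun z := pt (z 0 / α) ((z 1 - β * (z 0 / α)) / γ)
  left_inv y := by
    ext i
    fin_cases i
    · simp [pt]; field_simp
    · simp [pt]; field_simp; ring
  right_inv y := by
    ext i
    fin_cases i
    · simp [pt]; field_simp
    · simp [pt]; field_simp; ring

theorem ellipse_of_trig {K : Set E2} (hK : Body K) (x0 : E2)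
    (hpos : ∀ θ, 0 < hs K θ - ip x0 θ) {a b c : ℝ}
    (hq : ∀ θ, (hs K θ - ip x0 θ) ^ 2 = a + b * Real.cos (2 * θ) + c * Real.sin (2 * θ)) :
    ∃ f : E2 ≃ᵃ[ℝ] E2, K = f '' Metric.closedBall 0 1 := by
  have hq2 : ∀ θ, (hs K θ - ip x0 θ) ^ 2 = (a + b) * Real.cos θ ^ 2 +
      2 * c * (Real.cos θ * Real.sin θ) + (a - b) * Real.sin θ ^ 2 := by
    intro θ
    rw [hq θ, Real.cos_two_mul, Real.sin_two_mul]
    have := Real.sin_sq_add_cos_sq θ
    linear_combination (b - a) * this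
  have hab : 0 < a + b := by
    have h1 := hq2 0
    have h2 := hpos 0
    simp only [Real.cos_zero, Real.sin_zero] at h1
    have h3 : 0 < (hs K 0 - ip x0 0) ^ 2 := by positivity
    nlinarith
  have hdet : 0 < (a - b) * (a + b) - c ^ 2 := by
    have hw : pt (-c) (a + b) ≠ 0 := by
      intro h
      have : (pt (-c) (a + b)) 1 = (0 : E2) 1 := by rw [h]
      simp at this
      linarith
    obtain ⟨θ, hθ⟩ := exists_pos_ev _ hw
    set N := ‖pt (-c) (a + b)‖ with hN
    have hN0 : 0 < N := norm_pos_iff.2 hw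
    have e0 : -c = N * Real.cos θ := by
      have : (pt (-c) (a + b)) 0 = (N • ev θ : E2) 0 := by rw [← hθ]
      simpa using this
    have e1 : a + b = N * Real.sin θ := by
      have : (pt (-c) (a + b)) 1 = (N • ev θ : E2) 1 := by rw [← hθ]
      simpa using this
    have h1 := hq2 θ
    have h2 : 0 < N ^ 2 * (hs K θ - ip x0 θ) ^ 2 := by have := hpos θ; positivity
    rw [h1] at h2
    have h3 : N ^ 2 * ((a + b) * Real.cos θ ^ 2 +
      2 * c * (Real.cos θ * Real.sin θ) + (a - b) * Real.sin θ ^ 2) =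
      (a + b) * ((a - b) * (a + b) - c ^ 2) := by
      have : N ^ 2 * ((a + b) * Real.cos θ ^ 2 +
        2 * c * (Real.cos θ * Real.sin θ) + (a - b) * Real.sin θ ^ 2) =
        (a + b) * (N * Real.cos θ) ^ 2 + 2 * c * ((N * Real.cos θ) * (N * Real.sin θ)) +
        (a - b) * (N * Real.sin θ) ^ 2 := by ring
      rw [this, ← e0, ← e1]; ring
    rw [h3] at h2
    exact (pos_iff_pos_of_mul_pos h2).1 hab
  set α := Real.sqrt (a + b) with hα
  have hα0 : 0 < α := Real.sqrt_pos.2 hab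
  have hα2 : α ^ 2 = a + b := Real.sq_sqrt hab.le
  have hg : 0 < a - b - c ^ 2 / (a + b) := by
    rw [sub_pos, div_lt_iff₀ hab]; linarith
  set γ := Real.sqrt (a - b - c ^ 2 / (a + b)) with hγ
  have hγ0 : 0 < γ := Real.sqrt_pos.2 hg
  have hγ2 : γ ^ 2 = a - b - c ^ 2 / (a + b) := Real.sq_sqrt hg.le
  set β := c / α with hβ
  have hβ1 : α * β = c := by rw [hβ]; field_simp
  have hβ2 : β ^ 2 = c ^ 2 / (a + b) := by rw [hβ, div_pow, hα2]
  set f : E2 ≃ᵃ[ℝ] E2 := (TT α β γ hα0.ne' hγ0.ne').toAffineEquiv.trans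
    (AffineEquiv.constVAdd ℝ E2 x0) with hf
  have hfy : ∀ y, f y = x0 + pt (α * y 0) (β * y 0 + γ * y 1) := by
    intro y; rfl
  set v : ℝ → E2 := fun θ => pt (α * Real.cos θ + β * Real.sin θ) (γ * Real.sin θ) with hv
  have hvn : ∀ θ, ‖v θ‖ = hs K θ - ip x0 θ := by
    intro θ
    have h1 : ‖v θ‖ ^ 2 = (hs K θ - ip x0 θ) ^ 2 := by
      rw [hq2 θ, norm_sq_E2]
      simp only [hv, pt_zero, pt_one]
      have : (α * Real.cos θ + β * Real.sin θ) ^ 2 + (γ * Real.sin θ) ^ 2 =
        α ^ 2 * Real.cos θ ^ 2 + 2 * (α * β) * (Real.cos θ * Real.sin θ) +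
          (β ^ 2 + γ ^ 2) * Real.sin θ ^ 2 := by ring
      rw [this, hα2, hβ1, hβ2, hγ2]; ring
    exact (sq_eq_sq₀ (norm_nonneg _) (hpos θ).le).1 h1
  have hip : ∀ y θ, ip (f y) θ = ip x0 θ + inner ℝ y (v θ) := by
    intro y θ
    rw [hfy, ip_add, inner_E2]
    simp only [hv, pt_zero, pt_one, ip]
    ring
  refine ⟨f, ?_⟩
  have hcont : Continuous f := f.continuous_of_finiteDimensional
  have hcpt : IsCompact (f '' Metric.closedBall 0 1) :=
    (isCompact_closedBall (0 : E2) 1).image hcont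
  have hcvx : Convex ℝ (f '' Metric.closedBall 0 1) :=
    (convex_closedBall (0 : E2) 1).affine_image (f : E2 →ᵃ[ℝ] E2)
  have hne : (f '' Metric.closedBall (0 : E2) 1).Nonempty :=
    (Metric.nonempty_closedBall.2 zero_le_one).image _
  apply Subset.antisymm
  · intro x hx
    by_contra hxn
    obtain ⟨θ, hθ⟩ := sep hcpt hcvx hne hxn
    have h1 := le_hs hK.cpt hx θ
    have h2 : ip (f (‖v θ‖⁻¹ • v θ)) θ ≤ hs (f '' Metric.closedBall 0 1) θ := by
      apply le_hs hcpt
      apply mem_image_of_mem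
      rw [mem_closedBall_zero_iff, norm_smul, norm_inv, norm_norm]
      rw [inv_mul_cancel₀]
      rw [hvn]; exact (hpos θ).ne'
    rw [hip, real_inner_smul_left, real_inner_self_eq_norm_sq] at h2
    have h3 : ‖v θ‖⁻¹ * ‖v θ‖ ^ 2 = ‖v θ‖ := by
      have : ‖v θ‖ ≠ 0 := by rw [hvn]; exact (hpos θ).ne'
      field_simp
    rw [h3, hvn] at h2
    linarith
  · rintro _ ⟨y, hy, rfl⟩
    apply mem_of_ip_le hK.cpt hK.cvx hK.ne
    intro θ
    rw [hip]
    have h1 := real_inner_le_norm y (v θ)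
    rw [mem_closedBall_zero_iff] at hy
    have h2 : ‖y‖ * ‖v θ‖ ≤ 1 * ‖v θ‖ := by gcongr
    rw [one_mul] at h2
    have h3 := hvn θ
    linarith

end Pool.Agent.Q155.Mel
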