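import Pool.Agent.Q155.Mel.Swap

/-!
Main analytic statement: the relation between the excesses of `p` and `p1` forces
`p1 ^ 2 - p ^ 2` to be constant and the Fourier coefficients of `p ^ 2` to vanish.
-/

set_option autoImplicit false
open MeasureTheory Set Filter Topology

namespace Pool.Agent.Q155.Mel

/-- hypotheses on a pair of functions -/
structure Pair (p p1 : ℝ → ℝ) (M : ℝ) : Prop where
  hp : Continuous p
  hp1 : Continuous p1
  per : Function.Periodic p Real.pi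
  per1 : Function.Periodic p1 Real.pi
  hM : 0 < M
  h0 : ∀ θ, 0 ≤ p θ
  h01 : ∀ θ, 0 ≤ p1 θ
  hb : ∀ θ, p θ ≤ M
  hb1 : ∀ θ, p1 θ ≤ M
  rel : ∀ᶠ s in atTop, ∀ θ θ' r r', 0 < r → 0 < r' → 2 * r + EE p r θ = 2 * s →
    2 * r' + EE p r' θ' = 2 * s → EE p1 r θ - EE p r θ = EE p1 r' θ' - EE p r' θ'

variable {p p1 : ℝ → ℝ} {M : ℝ}

/-- the radius function -/
theorem Pair.exists_fun (h : Pair p p1 M) (θ : ℝ) : ∃ r : ℝ → ℝ, ∀ s, Real.pi * M < s →
    0 < r s ∧ r s ≤ s ∧ 2 * r s + EE p (r s) θ = 2 * s ∧ s - Real.pi * M / 2 ≤ r s := by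
  have : ∀ s, ∃ r, Real.pi * M < s →
      0 < r ∧ r ≤ s ∧ 2 * r + EE p r θ = 2 * s ∧ s - Real.pi * M / 2 ≤ r := by
    intro s
    by_cases hs : Real.pi * M < s
    · obtain ⟨r, hr⟩ := exists_r h.hp h.hM h.hb θ hs
      exact ⟨r, fun _ => hr⟩
    · exact ⟨0, fun h => absurd h hs⟩
  choose r hr using this
  exact ⟨r, hr⟩

noncomputable def Pair.rr (h : Pair p p1 M) (θ s : ℝ) : ℝ := Classical.choose (h.exists_fun θ) s

theorem Pair.rr_spec (h : Pair p p1 M) (θ : ℝ) : ∀ s, Real.pi * M < s →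
    0 < h.rr θ s ∧ h.rr θ s ≤ s ∧ 2 * h.rr θ s + EE p (h.rr θ s) θ = 2 * s ∧
      s - Real.pi * M / 2 ≤ h.rr θ s := Classical.choose_spec (h.exists_fun θ)

theorem Pair.rr_top (h : Pair p p1 M) (θ : ℝ) : Tendsto (h.rr θ) atTop atTop := by
  have h1 : Tendsto (fun s : ℝ => s - Real.pi * M / 2) atTop atTop :=
    tendsto_atTop_add_const_right _ _ tendsto_id
  refine tendsto_atTop_mono' _ ?_ h1
  filter_upwards [eventually_gt_atTop (Real.pi * M)] with s hs using (h.rr_spec θ s hs).2.2.2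

theorem Pair.rr_ratio (h : Pair p p1 M) (θ : ℝ) : Tendsto (fun s => s / h.rr θ s) atTop (𝓝 1) := by
  have hpi := Real.pi_pos
  have h1 : Tendsto (fun s => 1 + (s - h.rr θ s) / h.rr θ s) atTop (𝓝 (1 + 0)) := by
    apply tendsto_const_nhds.add
    have h2 : Tendsto (fun s => Real.pi * M / 2 / h.rr θ s) atTop (𝓝 0) :=
      tendsto_const_nhds.div_atTop (h.rr_top θ)
    refine squeeze_zero' ?_ ?_ h2
    · filter_upwards [eventually_gt_atTop (Real.pi * M)] with s hs
      obtain ⟨a, b, _, _⟩ := h.rr_spec θ s hs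
      exact div_nonneg (by linarith) a.le
    · filter_upwards [eventually_gt_atTop (Real.pi * M)] with s hs
      obtain ⟨a, b, _, d⟩ := h.rr_spec θ s hs
      gcongr
      linarith
  rw [add_zero] at h1
  refine Tendsto.congr' ?_ h1
  filter_upwards [eventually_gt_atTop (Real.pi * M)] with s hs
  have a := (h.rr_spec θ s hs).1
  field_simp
  ring

theorem Pair.rr_del (h : Pair p p1 M) (θ : ℝ) :
    Tendsto (fun s => s * (s - h.rr θ s)) atTop (𝓝 (p θ ^ 2 / 2)) := by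
  have h1 := (lim_EE h.hp h.hM h.h0 h.hb θ).comp (h.rr_top θ)
  have h2 := ((h.rr_ratio θ).mul h1).div_const 2
  rw [one_mul] at h2
  refine Tendsto.congr' ?_ h2
  filter_upwards [eventually_gt_atTop (Real.pi * M)] with s hs
  obtain ⟨a, b, c, d⟩ := h.rr_spec θ s hs
  simp only [Function.comp]
  have e : s - h.rr θ s = EE p (h.rr θ s) θ / 2 := by linarith
  rw [e]
  field_simp

theorem Pair.const (h : Pair p p1 M) (θ θ' : ℝ) :
    p1 θ ^ 2 - p θ ^ 2 = p1 θ' ^ 2 - p θ' ^ 2 := by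
  have key : ∀ θ, Tendsto (fun s => s * (EE p1 (h.rr θ s) θ - EE p (h.rr θ s) θ)) atTop
      (𝓝 (p1 θ ^ 2 - p θ ^ 2)) := by
    intro θ
    have h1 := (lim_EE h.hp h.hM h.h0 h.hb θ).comp (h.rr_top θ)
    have h2 := (lim_EE h.hp1 h.hM h.h01 h.hb1 θ).comp (h.rr_top θ)
    have h3 := (h.rr_ratio θ).mul (h2.sub h1)
    rw [one_mul] at h3
    refine Tendsto.congr' ?_ h3
    filter_upwards [eventually_gt_atTop (Real.pi * M)] with s hs
    have a := (h.rr_spec θ s hs).1
    simp only [Function.comp]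
    field_simp
  refine tendsto_nhds_unique (key θ) (Tendsto.congr' ?_ (key θ'))
  filter_upwards [eventually_gt_atTop (Real.pi * M), h.rel] with s hs hrel
  obtain ⟨a, b, c, d⟩ := h.rr_spec θ s hs
  obtain ⟨a', b', c', d'⟩ := h.rr_spec θ' s hs
  rw [hrel θ θ' _ _ a a' c c']

/-- difference at radius `s` and common value -/
noncomputable def Pair.dd (h : Pair p p1 M) (s θ : ℝ) : ℝ :=
  s ^ 3 * ((EE p1 s θ - EE p s θ) - (EE p1 (h.rr 0 s) 0 - EE p (h.rr 0 s) 0))

theorem Pair.dd_eq (h : Pair p p1 M) : ∀ᶠ s in atTop, ∀ θ, h.dd s θ =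
    s ^ 3 * (EE p (h.rr θ s) θ - EE p s θ) - s ^ 3 * (EE p1 (h.rr θ s) θ - EE p1 s θ) := by
  filter_upwards [eventually_gt_atTop (Real.pi * M), h.rel] with s hs hrel θ
  obtain ⟨a, b, c, d⟩ := h.rr_spec θ s hs
  obtain ⟨a', b', c', d'⟩ := h.rr_spec 0 s hs
  unfold Pair.dd
  rw [← hrel θ 0 _ _ a a' c c']
  ring

theorem Pair.dd_lim (h : Pair p p1 M) (θ : ℝ) : Tendsto (fun s => h.dd s θ) atTop
    (𝓝 (-(p θ ^ 2 / 2 * (p1 θ ^ 2 - p θ ^ 2)))) := by
  have hr : ∀ᶠ s in atTop, h.rr θ s ≤ s := by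
    filter_upwards [eventually_gt_atTop (Real.pi * M)] with s hs using (h.rr_spec θ s hs).2.1
  have h1 := lim_EE2 h.hp h.hM h.h0 h.hb θ (h.rr θ) _ hr (h.rr_del θ)
  have h2 := lim_EE2 h.hp1 h.hM h.h01 h.hb1 θ (h.rr θ) _ hr (h.rr_del θ)
  have h3 := h1.sub h2
  have e : p θ ^ 2 / 2 * p θ ^ 2 - p θ ^ 2 / 2 * p1 θ ^ 2 =
      -(p θ ^ 2 / 2 * (p1 θ ^ 2 - p θ ^ 2)) := by ring
  rw [e] at h3
  refine Tendsto.congr' ?_ h3
  filter_upwards [h.dd_eq] with s hs
  rw [hs θ]

theorem Pair.dd_bound (h : Pair p p1 M) : ∃ B, ∀ᶠ s in atTop, ∀ θ, |h.dd s θ| ≤ B := by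
  have hpi := Real.pi_pos
  have hM := h.hM
  refine ⟨2 * (2 * (Real.pi * M) * ((Real.pi * M ^ 2) * (Real.pi * M))), ?_⟩
  filter_upwards [h.dd_eq, eventually_gt_atTop (Real.pi * M), eventually_ge_atTop (2 * M)]
    with s hs hs1 hs2 θ
  have hs0 : 0 < s := by linarith
  obtain ⟨a, b, c, d⟩ := h.rr_spec θ s hs1
  have hr2 : s / 2 ≤ h.rr θ s := by linarith
  have hD : s * (s - h.rr θ s) ≤ Real.pi * M ^ 2 := by
    have h1 := EE_le h.hp hM h.hb θ (r := h.rr θ s) (by linarith)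
    have e : s - h.rr θ s = EE p (h.rr θ s) θ / 2 := by linarith
    rw [e]
    rw [le_div_iff₀ (by positivity)] at h1
    have h2 : 0 ≤ EE p (h.rr θ s) θ := EE_nonneg _ _ _
    nlinarith
  have h1 := EE2_bound h.hp hM h.hb θ hs0 b hr2 hD
  have h2 := EE2_bound h.hp1 hM h.hb1 θ hs0 b hr2 hD
  rw [hs θ]
  refine (abs_sub _ _).trans ?_
  linarith

theorem int_cos_zero (m : ℤ) (hm : m ≠ 0) (α : ℝ) :
    ∫ θ in (0 : ℝ)..Real.pi, Real.cos (2 * m * θ - α) = 0 := by
  have hm' : (2 * (m : ℝ)) ≠ 0 := by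
    have : (m : ℝ) ≠ 0 := Int.cast_ne_zero.2 hm
    positivity
  have := intervalIntegral.integral_comp_mul_sub (a := 0) (b := Real.pi) Real.cos hm' α
  rw [this, integral_cos]
  have h1 : 2 * (m : ℝ) * Real.pi - α = -α + m * (2 * Real.pi) := by ring
  rw [h1, Real.sin_add_int_mul_two_pi]
  simp

theorem Pair.fourier (h : Pair p p1 M) (hne : p1 0 ^ 2 ≠ p 0 ^ 2) (m : ℤ) (hm : m ≠ 0)
    (hm1 : m ^ 2 ≠ 1) (α : ℝ) :
    ∫ θ in (0 : ℝ)..Real.pi, Real.cos (2 * m * θ - α) * p θ ^ 2 = 0 := by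
  have hpi := Real.pi_pos
  have hM := h.hM
  set c := p1 0 ^ 2 - p 0 ^ 2 with hc
  have hc0 : c ≠ 0 := sub_ne_zero.2 hne
  have hcθ : ∀ θ, p1 θ ^ 2 = p θ ^ 2 + c := by
    intro θ; have := h.const θ 0; rw [hc]; linarith
  have hpc := h.hp
  have hpc1 := h.hp1
  set I := ∫ θ in (0 : ℝ)..Real.pi, Real.cos (2 * m * θ - α) * p θ ^ 2 with hI
  -- first limit
  have L1 : Tendsto (fun s => ∫ θ in (0 : ℝ)..Real.pi, Real.cos (2 * m * θ - α) * h.dd s θ) atTop
      (𝓝 (∫ θ in (0 : ℝ)..Real.pi, Real.cos (2 * m * θ - α) * (-(p θ ^ 2 / 2 * c)))) := by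
    obtain ⟨B, hB⟩ := h.dd_bound
    apply intervalIntegral.tendsto_integral_filter_of_dominated_convergence (fun _ => B)
    · filter_upwards with s
      apply Continuous.aestronglyMeasurable
      have c1 : Continuous (fun θ => EE p s θ) :=
        (cont_EE hpc).comp (by fun_prop : Continuous fun θ : ℝ => (s, θ))
      have c2 : Continuous (fun θ => EE p1 s θ) :=
        (cont_EE hpc1).comp (by fun_prop : Continuous fun θ : ℝ => (s, θ))
      unfold Pair.dd
      fun_prop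
    · filter_upwards [hB] with s hs
      filter_upwards with θ _
      rw [Real.norm_eq_abs, abs_mul]
      calc |Real.cos (2 * m * θ - α)| * |h.dd s θ| ≤ 1 * |h.dd s θ| := by
            gcongr; exact Real.abs_cos_le_one _
        _ ≤ B := by rw [one_mul]; exact hs θ
    · simp
    · filter_upwards with θ _
      apply Tendsto.const_mul
      have := h.dd_lim θ
      rw [hcθ θ, add_sub_cancel_left] at this
      exact this
  -- second limit
  have L2 : Tendsto (fun s => ∫ θ in (0 : ℝ)..Real.pi, Real.cos (2 * m * θ - α) *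
      ((s ^ 3 * ek (2 * m) s (p1 θ) - s ^ 2 * p1 θ ^ 2) -
        (s ^ 3 * ek (2 * m) s (p θ) - s ^ 2 * p θ ^ 2))) atTop
      (𝓝 (∫ θ in (0 : ℝ)..Real.pi, Real.cos (2 * m * θ - α) *
        ((1 - (2 * (m : ℝ)) ^ 2) * p1 θ ^ 4 / 12 - (1 - (2 * (m : ℝ)) ^ 2) * p θ ^ 4 / 12))) := by
    apply intervalIntegral.tendsto_integral_filter_of_dominated_convergence
      (fun _ => 2 * (((Real.pi * M) ^ 3 / 6 + (2 * (m : ℝ)) ^ 2 * (Real.pi * M) ^ 2 / 2 * M) *
        (2 * (Real.pi * M))))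
    · filter_upwards with s
      apply Continuous.aestronglyMeasurable
      have c1 := (cont_ek (2 * m) s).comp hpc
      have c2 := (cont_ek (2 * m) s).comp hpc1
      simp only [Function.comp_def] at c1 c2
      fun_prop
    · filter_upwards [eventually_gt_atTop 0, eventually_ge_atTop (2 * M)] with s hs hs2
      filter_upwards with θ _
      have b1 := ek_bound (k := 2 * m) (h.h0 θ) (h.hb θ) hM hs hs2
      have b2 := ek_bound (k := 2 * m) (h.h01 θ) (h.hb1 θ) hM hs hs2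
      rw [Real.norm_eq_abs, abs_mul]
      calc |Real.cos (2 * m * θ - α)| * |(s ^ 3 * ek (2 * m) s (p1 θ) - s ^ 2 * p1 θ ^ 2) -
            (s ^ 3 * ek (2 * m) s (p θ) - s ^ 2 * p θ ^ 2)|
          ≤ 1 * |(s ^ 3 * ek (2 * m) s (p1 θ) - s ^ 2 * p1 θ ^ 2) -
            (s ^ 3 * ek (2 * m) s (p θ) - s ^ 2 * p θ ^ 2)| := by
            gcongr; exact Real.abs_cos_le_one _
        _ ≤ _ := by
            rw [one_mul]
            refine (abs_sub _ _).trans ?_
            linarith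
    · simp
    · filter_upwards with θ _
      apply Tendsto.const_mul
      exact (lim_ek (2 * m) (h.h01 θ) (h.hb1 θ) hM).sub (lim_ek (2 * m) (h.h0 θ) (h.hb θ) hM)
  have hEq : ∀ s, ∫ θ in (0 : ℝ)..Real.pi, Real.cos (2 * m * θ - α) * h.dd s θ =
      ∫ θ in (0 : ℝ)..Real.pi, Real.cos (2 * m * θ - α) *
      ((s ^ 3 * ek (2 * m) s (p1 θ) - s ^ 2 * p1 θ ^ 2) -
        (s ^ 3 * ek (2 * m) s (p θ) - s ^ 2 * p θ ^ 2)) := by
    intro s
    have c1 : Continuous (fun θ => EE p s θ) :=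
        (cont_EE hpc).comp (by fun_prop : Continuous fun θ : ℝ => (s, θ))
    have c2 : Continuous (fun θ => EE p1 s θ) :=
        (cont_EE hpc1).comp (by fun_prop : Continuous fun θ : ℝ => (s, θ))
    have c3 := (cont_ek (2 * m) s).comp hpc
    have c4 := (cont_ek (2 * m) s).comp hpc1
    simp only [Function.comp_def] at c3 c4
    set v := EE p1 (h.rr 0 s) 0 - EE p (h.rr 0 s) 0 with hv
    have e1 : ∫ θ in (0 : ℝ)..Real.pi, Real.cos (2 * m * θ - α) * h.dd s θ =
        s ^ 3 * (∫ θ in (0 : ℝ)..Real.pi, Real.cos (2 * m * θ - α) * EE p1 s θ) -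
        s ^ 3 * (∫ θ in (0 : ℝ)..Real.pi, Real.cos (2 * m * θ - α) * EE p s θ) -
        s ^ 3 * v * (∫ θ in (0 : ℝ)..Real.pi, Real.cos (2 * m * θ - α)) := by
      rw [← intervalIntegral.integral_const_mul, ← intervalIntegral.integral_const_mul,
        ← intervalIntegral.integral_const_mul, ← intervalIntegral.integral_sub
          (by apply Continuous.intervalIntegrable; fun_prop)
          (by apply Continuous.intervalIntegrable; fun_prop),
        ← intervalIntegral.integral_sub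
          (by apply Continuous.intervalIntegrable; fun_prop)
          (by apply Continuous.intervalIntegrable; fun_prop)]
      congr 1
      ext θ
      unfold Pair.dd
      rw [← hv]
      ring
    have e2 : ∫ θ in (0 : ℝ)..Real.pi, Real.cos (2 * m * θ - α) *
      ((s ^ 3 * ek (2 * m) s (p1 θ) - s ^ 2 * p1 θ ^ 2) -
        (s ^ 3 * ek (2 * m) s (p θ) - s ^ 2 * p θ ^ 2)) =
        s ^ 3 * (∫ θ in (0 : ℝ)..Real.pi, Real.cos (2 * m * θ - α) * ek (2 * m) s (p1 θ)) -
        s ^ 3 * (∫ θ in (0 : ℝ)..Real.pi, Real.cos (2 * m * θ - α) * ek (2 * m) s (p θ)) -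
        s ^ 2 * c * (∫ θ in (0 : ℝ)..Real.pi, Real.cos (2 * m * θ - α)) := by
      rw [← intervalIntegral.integral_const_mul, ← intervalIntegral.integral_const_mul,
        ← intervalIntegral.integral_const_mul, ← intervalIntegral.integral_sub
          (by apply Continuous.intervalIntegrable; fun_prop)
          (by apply Continuous.intervalIntegrable; fun_prop),
        ← intervalIntegral.integral_sub
          (by apply Continuous.intervalIntegrable; fun_prop)
          (by apply Continuous.intervalIntegrable; fun_prop)]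
      congr 1
      ext θ
      rw [hcθ θ]
      ring
    rw [e1, e2, swap_EE hpc h.per, swap_EE hpc1 h.per1, int_cos_zero m hm]
    ring
  have hU := tendsto_nhds_unique L1 (L2.congr fun s => (hEq s).symm)
  have e3 : ∫ θ in (0 : ℝ)..Real.pi, Real.cos (2 * m * θ - α) * (-(p θ ^ 2 / 2 * c)) =
      (-(c / 2)) * I := by
    rw [hI, ← intervalIntegral.integral_const_mul]
    congr 1
    ext θ; ring
  have e4 : ∫ θ in (0 : ℝ)..Real.pi, Real.cos (2 * m * θ - α) *
        ((1 - (2 * (m : ℝ)) ^ 2) * p1 θ ^ 4 / 12 - (1 - (2 * (m : ℝ)) ^ 2) * p θ ^ 4 / 12) =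
      (1 - (2 * (m : ℝ)) ^ 2) / 6 * c * I + (1 - (2 * (m : ℝ)) ^ 2) / 12 * c ^ 2 *
        (∫ θ in (0 : ℝ)..Real.pi, Real.cos (2 * m * θ - α)) := by
    rw [hI, ← intervalIntegral.integral_const_mul, ← intervalIntegral.integral_const_mul,
      ← intervalIntegral.integral_add
          (by apply Continuous.intervalIntegrable; fun_prop)
          (by apply Continuous.intervalIntegrable; fun_prop)]
    congr 1
    ext θ
    have : p1 θ ^ 4 = (p θ ^ 2 + c) ^ 2 := by rw [← hcθ θ]; ring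
    rw [this]; ring
  rw [e3, e4, int_cos_zero m hm, mul_zero, add_zero] at hU
  have hm2 : ((m : ℝ)) ^ 2 ≠ 1 := by
    intro h'; apply hm1; exact_mod_cast h'
  have : c * (4 - 4 * (m : ℝ) ^ 2) * I = 0 := by linarith
  rcases mul_eq_zero.1 this with h' | h'
  · rcases mul_eq_zero.1 h' with h'' | h''
    · exact absurd h'' hc0
    · exfalso; apply hm2; linarith
  · exact h'

end Pool.Agent.Q155.Mel
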