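import Pool.Agent.Q155.Mel.Shift
import Pool.Agent.Q155.Mel.Main
import Pool.Agent.Y508.PerimLow

/-!
Geometry: the string construction in terms of support functions.
-/

set_option autoImplicit false
open MeasureTheory Set Filter Topology Metric
open Pool.Agent.Y508

namespace Pool.Agent.Q155.Mel

theorem cpt_hull {K : Set E2} (hK : Body K) (x : E2) : IsCompact (convexHull ℝ (insert x K)) := by
  have h1 : convexHull ℝ (insert x K) =
      (fun q : ℝ × E2 => (1 - q.1) • x + q.1 • q.2) '' (Icc (0 : ℝ) 1 ×ˢ K) := by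
    rw [convexHull_insert hK.ne, hK.cvx.convexHull_eq]
    ext z
    rw [mem_convexJoin]
    constructor
    · rintro ⟨a, ha, b, hb, hz⟩
      rw [mem_singleton_iff] at ha
      rw [ha, segment_eq_image] at hz
      obtain ⟨t, ht, rfl⟩ := hz
      exact ⟨(t, b), ⟨ht, hb⟩, rfl⟩
    · rintro ⟨⟨t, b⟩, ⟨ht, hb⟩, rfl⟩
      refine ⟨x, mem_singleton x, b, hb, ?_⟩
      rw [segment_eq_image]
      exact ⟨t, ht, rfl⟩
  rw [h1]
  apply (isCompact_Icc.prod hK.cpt).image
  fun_prop

theorem hull_body {K : Set E2} (hK : Body K) (x : E2) : Body (convexHull ℝ (insert x K)) where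
  cpt := cpt_hull hK x
  cvx := convex_convexHull _ _
  int := hK.int.mono (interior_mono ((subset_insert x K).trans (subset_convexHull ℝ _)))

theorem hs_hull {K : Set E2} (hK : Body K) (x : E2) (θ : ℝ) :
    hs (convexHull ℝ (insert x K)) θ = max (hs K θ) (ip x θ) := by
  apply le_antisymm
  · apply hs_le (hull_body hK x).ne
    intro y hy
    have hconv : Convex ℝ {z : E2 | ip z θ ≤ max (hs K θ) (ip x θ)} := by
      intro a ha b hb s t hs' ht hst
      change ip (s • a + t • b) θ ≤ max (hs K θ) (ip x θ)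
      change ip a θ ≤ max (hs K θ) (ip x θ) at ha
      change ip b θ ≤ max (hs K θ) (ip x θ) at hb
      rw [ip_add, ip_smul, ip_smul]
      calc s * ip a θ + t * ip b θ ≤ s * max (hs K θ) (ip x θ) + t * max (hs K θ) (ip x θ) := by
            gcongr
        _ = max (hs K θ) (ip x θ) := by rw [← add_mul, hst, one_mul]
    have hsub : insert x K ⊆ {z : E2 | ip z θ ≤ max (hs K θ) (ip x θ)} := by
      intro z hz
      change ip z θ ≤ max (hs K θ) (ip x θ)
      rcases mem_insert_iff.1 hz with rfl | hz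
      · exact le_max_right _ _
      · exact (le_hs hK.cpt hz θ).trans (le_max_left _ _)
    exact convexHull_min hsub hconv hy
  · apply max_le
    · exact hs_mono (hull_body hK x).cpt hK.ne
        ((subset_insert x K).trans (subset_convexHull ℝ _)) θ
    · exact le_hs (hull_body hK x).cpt (subset_convexHull ℝ _ (mem_insert x K)) θ

theorem perim_hull {K : Set E2} (hK : Body K) (x : E2) :
    (μH[1] (frontier (convexHull ℝ (insert x K)))).toReal = LL (hs K) x := by
  rw [perim_eq (hull_body hK x)]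
  unfold W LL
  congr 1
  ext θ
  exact hs_hull hK x θ

theorem hs_bound {K : Set E2} (hK : Body K) : ∃ M, Fn (hs K) M := by
  obtain ⟨R, hR⟩ := hK.cpt.isBounded.exists_norm_le
  refine ⟨max R 1, cont_hs hK.cpt, hs_two_pi K, lt_max_of_lt_right one_pos, fun θ => ?_⟩
  obtain ⟨x, hx, hxe⟩ := exists_hs hK.cpt hK.ne θ
  rw [hxe]
  exact ((abs_ip_le x θ).trans (hR x hx)).trans (le_max_left _ _)

theorem LL_mem {K : Set E2} (hK : Body K) {x : E2} (hx : x ∈ K) : LL (hs K) x = W K := by
  unfold LL W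
  congr 1
  ext θ
  exact max_eq_left (le_hs hK.cpt hx θ)

theorem LL_convex {h : ℝ → ℝ} {M : ℝ} (hh : Fn h M) : ConvexOn ℝ univ (LL h) := by
  have hc := hh.cont
  have hpi := Real.pi_pos
  refine ⟨convex_univ, fun x _ y _ s t hs ht hst => ?_⟩
  have hx := cont_ip x
  have hy := cont_ip y
  have hxy := cont_ip (s • x + t • y)
  unfold LL
  rw [smul_eq_mul, smul_eq_mul, ← intervalIntegral.integral_const_mul,
    ← intervalIntegral.integral_const_mul, ← intervalIntegral.integral_add
      (by apply Continuous.intervalIntegrable; fun_prop)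
      (by apply Continuous.intervalIntegrable; fun_prop)]
  apply intervalIntegral.integral_mono_on (by linarith)
    (by apply Continuous.intervalIntegrable; fun_prop)
    (by apply Continuous.intervalIntegrable; fun_prop)
  intro θ _
  apply max_le
  · calc h θ = s * h θ + t * h θ := by rw [← add_mul, hst, one_mul]
      _ ≤ s * max (h θ) (ip x θ) + t * max (h θ) (ip y θ) := by
        gcongr <;> exact le_max_left _ _
  · rw [ip_add, ip_smul, ip_smul]
    gcongr <;> exact le_max_right _ _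

/-- the body bounded by the string curve -/
def KK (K : Set E2) (ℓ : ℝ) : Set E2 := {x | LL (hs K) x ≤ ℓ}

theorem KK_body {K : Set E2} (hK : Body K) {ℓ : ℝ} (hℓ : W K ≤ ℓ) : Body (KK K ℓ) := by
  obtain ⟨M, hM⟩ := hs_bound hK
  refine ⟨?_, ?_, ?_⟩
  · apply Metric.isCompact_of_isClosed_isBounded
    · exact isClosed_le (cont_LL hM) continuous_const
    · rw [isBounded_iff_forall_norm_le]
      refine ⟨max 0 ((ℓ + Real.pi * M) / 2), fun x hx => ?_⟩
      by_cases hx0 : x = 0
      · rw [hx0, norm_zero]; exact le_max_left _ _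
      · obtain ⟨φ, hφ⟩ := exists_pos_ev x hx0
        have h1 := LL_ge' hM ‖x‖ φ
        rw [← hφ] at h1
        have h2 : LL (hs K) x ≤ ℓ := hx
        apply le_trans _ (le_max_right _ _)
        linarith
  · have := (LL_convex hM).convex_le ℓ
    simpa [KK] using this
  · apply hK.int.mono
    apply interior_mono
    intro x hx
    change LL (hs K) x ≤ ℓ
    rw [LL_mem hK hx]; exact hℓ

theorem sub_KK {K : Set E2} (hK : Body K) {ℓ : ℝ} (hℓ : W K ≤ ℓ) : K ⊆ KK K ℓ := by
  intro x hx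
  change LL (hs K) x ≤ ℓ
  rw [LL_mem hK hx]; exact hℓ

theorem int_ip_full (x : E2) : ∫ θ in (0 : ℝ)..(2 * Real.pi), ip x θ = 0 := by
  unfold ip
  rw [intervalIntegral.integral_add (by apply Continuous.intervalIntegrable; fun_prop)
    (by apply Continuous.intervalIntegrable; fun_prop), intervalIntegral.integral_const_mul,
    intervalIntegral.integral_const_mul, integral_cos, integral_sin]
  simp

theorem LL_translate {h : ℝ → ℝ} (hc : Continuous h) (x P : E2) :
    LL h (x + P) = LL (fun θ => h θ - ip x θ) P := by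
  have h1 := cont_ip x
  have h2 := cont_ip P
  have h3 := cont_ip (x + P)
  unfold LL
  have e : ∫ θ in (0 : ℝ)..(2 * Real.pi), max (h θ) (ip (x + P) θ) =
      (∫ θ in (0 : ℝ)..(2 * Real.pi), max (h θ - ip x θ) (ip P θ)) +
      ∫ θ in (0 : ℝ)..(2 * Real.pi), ip x θ := by
    rw [← intervalIntegral.integral_add (by apply Continuous.intervalIntegrable; fun_prop)
      (by apply Continuous.intervalIntegrable; fun_prop)]
    congr 1
    ext θ
    rw [← max_add_add_right, sub_add_cancel, ip_add, add_comm (ip P θ)]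
  rw [e, int_ip_full, add_zero]

/-- formula for symmetric functions -/
theorem LL_sym {p : ℝ → ℝ} {M : ℝ} (hp : Fn p M) (hper : Function.Periodic p Real.pi)
    (h0 : ∀ θ, 0 ≤ p θ) {r : ℝ} (hr : 0 ≤ r) (φ : ℝ) :
    LL p (r • ev φ) = 2 * r + (∫ θ in (0 : ℝ)..Real.pi, p θ) + EE p r (φ + Real.pi / 2) := by
  have hc := hp.cont
  have hpi := Real.pi_pos
  have h1 := LL_polar hp r φ
  have h2 : ∫ θ in (φ + Real.pi / 2)..(φ + 3 * Real.pi / 2), max (p θ) (r * Real.cos (θ - φ)) =
      ∫ θ in (0 : ℝ)..Real.pi, p θ := by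
    have e1 : ∫ θ in (φ + Real.pi / 2)..(φ + 3 * Real.pi / 2),
        max (p θ) (r * Real.cos (θ - φ)) =
        ∫ θ in (φ + Real.pi / 2)..(φ + 3 * Real.pi / 2), p θ := by
      apply intervalIntegral.integral_congr
      intro θ hθ
      rw [uIcc_of_le (by linarith)] at hθ
      apply max_eq_left
      have := mul_nonpos_of_nonneg_of_nonpos hr (cos_nonpos_arc hθ.1 hθ.2)
      linarith [h0 θ]
    rw [e1]
    have e2 := hper.intervalIntegral_add_eq (φ + Real.pi / 2) 0
    have e3 : φ + Real.pi / 2 + Real.pi = φ + 3 * Real.pi / 2 := by ring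
    rw [e3, zero_add] at e2
    exact e2
  have h3 : ∫ θ in (φ - Real.pi / 2)..(φ + Real.pi / 2), max (p θ - r * Real.cos (θ - φ)) 0 =
      EE p r (φ + Real.pi / 2) := by
    have hG : Function.Periodic (fun θ => max (p θ - r * |Real.cos (θ - φ)|) 0) Real.pi := by
      intro θ
      simp only [hper θ]
      have : θ + Real.pi - φ = (θ - φ) + Real.pi := by ring
      rw [this, Real.cos_add_pi, abs_neg]
    have e1 : ∫ θ in (φ - Real.pi / 2)..(φ + Real.pi / 2), max (p θ - r * Real.cos (θ - φ)) 0 =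
        ∫ θ in (φ - Real.pi / 2)..(φ + Real.pi / 2), max (p θ - r * |Real.cos (θ - φ)|) 0 := by
      apply intervalIntegral.integral_congr
      intro θ hθ
      rw [uIcc_of_le (by linarith)] at hθ
      simp only
      rw [abs_of_nonneg (cos_nonneg_arc hθ.1 hθ.2)]
    rw [e1]
    have e2 := hG.intervalIntegral_add_eq (φ - Real.pi / 2) φ
    have e3 : φ - Real.pi / 2 + Real.pi = φ + Real.pi / 2 := by ring
    rw [e3] at e2
    rw [e2]
    have e4 := intervalIntegral.integral_comp_add_left (a := -(Real.pi / 2)) (b := Real.pi / 2)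
      (fun θ => max (p θ - r * |Real.cos (θ - φ)|) 0) (φ + Real.pi / 2)
    have e5 : φ + Real.pi / 2 + -(Real.pi / 2) = φ := by ring
    have e6 : φ + Real.pi / 2 + Real.pi / 2 = φ + Real.pi := by ring
    rw [e5, e6] at e4
    rw [← e4]
    unfold EE
    congr 1
    ext y
    have e7 : φ + Real.pi / 2 + y - φ = y + Real.pi / 2 := by ring
    rw [e7, Real.cos_add_pi_div_two, abs_neg]
  rw [h2, h3] at h1
  linarith

/-- the relation produced by transitivity -/
def Rel (h h1 : ℝ → ℝ) (w : ℝ) : Prop :=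
  ∀ P P', w < LL h1 P → LL h P' = LL h P → LL h1 P' = LL h1 P

/-- key statement: the square of the centred support function is a trigonometric polynomial -/
theorem trig_of_rel {K : Set E2} (hK : Body K)
    (hrel : ∀ ℓ, W K < ℓ → Rel (hs K) (hs (KK K ℓ)) (W (KK K ℓ))) :
    ∃ x0 : E2, (∀ θ, 0 < hs K θ - ip x0 θ) ∧
      (∀ m : ℤ, m ≠ 0 → m ^ 2 ≠ 1 → ∀ α : ℝ,
      ∫ θ in (0 : ℝ)..Real.pi, Real.cos (2 * m * θ - α) * (hs K θ - ip x0 θ) ^ 2 = 0) ∧
      Function.Periodic (fun θ => hs K θ - ip x0 θ) Real.pi := by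
  have hpi := Real.pi_pos
  obtain ⟨M, hM⟩ := hs_bound hK
  -- all string bodies differ by symmetric functions
  have hdp : ∀ ℓ, W K < ℓ → ∀ θ, hs (KK K ℓ) (θ + Real.pi) - hs K (θ + Real.pi) =
      hs (KK K ℓ) θ - hs K θ := by
    intro ℓ hℓ θ
    obtain ⟨M1, hM1⟩ := hs_bound (KK_body hK hℓ.le)
    exact diff_per (M := max M M1)
      ⟨hM.cont, hM.per, lt_max_of_lt_left hM.hM, fun θ => (hM.bd θ).trans (le_max_left _ _)⟩
      ⟨hM1.cont, hM1.per, lt_max_of_lt_left hM.hM, fun θ => (hM1.bd θ).trans (le_max_right _ _)⟩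
      _ (hrel ℓ hℓ) θ
  -- centre
  have hcr := centre_rel hM (W K) (fun ℓ => hs (KK K ℓ)) hdp (by
    intro ℓ hℓ φ
    apply hs_le (KK_body hK hℓ.le).ne
    intro x hx
    have h1 := LL_ge hM x φ
    have h2 : LL (hs K) x ≤ ℓ := hx
    linarith) (by
    intro ℓ hℓ φ r hr hre
    have hmem : r • ev φ ∈ KK K ℓ := hre.le
    have := le_hs (KK_body hK hℓ.le).cpt hmem φ
    rw [ip_smul_ev, sub_self, Real.cos_zero, mul_one] at this
    exact this)
  obtain ⟨x0, hx0⟩ := exists_centre hM hcr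
  have hx0' : Function.Periodic (fun θ => hs K θ - ip x0 θ) Real.pi := hx0
  have hpos : ∀ θ, 0 < hs K θ - ip x0 θ := by
    intro θ
    have h1 := width_pos hK θ
    have h2 := hx0 θ
    rw [ip_add_pi] at h2
    linarith
  refine ⟨x0, hpos, ?_, hx0'⟩
  -- fix one string body
  set ℓ := W K + 1 with hℓd
  have hℓ : W K < ℓ := by linarith
  have hK1 := KK_body hK hℓ.le
  obtain ⟨M1, hM1⟩ := hs_bound hK1
  set p : ℝ → ℝ := fun θ => hs K θ - ip x0 θ with hp
  set p1 : ℝ → ℝ := fun θ => hs (KK K ℓ) θ - ip x0 θ with hp1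
  have hipc := cont_ip x0
  have hKc := hM.cont
  have hK1c := hM1.cont
  have hpc : Continuous p := by rw [hp]; fun_prop
  have hp1c : Continuous p1 := by rw [hp1]; fun_prop
  have hle : ∀ θ, p θ ≤ p1 θ := fun θ => by
    have := hs_mono hK1.cpt hK.ne (sub_KK hK hℓ.le) θ
    simp only [hp, hp1]; linarith
  have hp1per : Function.Periodic p1 Real.pi := by
    intro θ
    have h1 := hdp ℓ hℓ θ
    have h2 := hx0 θ
    simp only [hp1]
    linarith
  have hM2 : 0 < M + M1 + ‖x0‖ := by
    have := hM.hM; have := hM1.hM; have := norm_nonneg x0; linarith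
  have hbp : ∀ θ, |p θ| ≤ M + M1 + ‖x0‖ := by
    intro θ
    have h1 := hM.bd θ
    have h2 := abs_ip_le x0 θ
    have h3 := hM1.hM
    refine (abs_sub _ _).trans ?_
    linarith
  have hbp1 : ∀ θ, |p1 θ| ≤ M + M1 + ‖x0‖ := by
    intro θ
    have h1 := hM1.bd θ
    have h2 := abs_ip_le x0 θ
    have h3 := hM.hM
    refine (abs_sub _ _).trans ?_
    linarith
  have hFp : Fn p (M + M1 + ‖x0‖) := ⟨hpc, fun θ => by
    simp only [hp, hs_two_pi, ip_two_pi], hM2, hbp⟩
  have hFp1 : Fn p1 (M + M1 + ‖x0‖) := ⟨hp1c, fun θ => by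
    simp only [hp1, hs_two_pi, ip_two_pi], hM2, hbp1⟩
  set κ := ∫ θ in (0 : ℝ)..Real.pi, p θ with hκ
  set κ1 := ∫ θ in (0 : ℝ)..Real.pi, p1 θ with hκ1
  have F0 : ∀ r, 0 ≤ r → ∀ θ, LL (hs K) (x0 + r • ev (θ - Real.pi / 2)) =
      2 * r + κ + EE p r θ := by
    intro r hr θ
    rw [LL_translate hKc, LL_sym hFp hx0' (fun θ => (hpos θ).le) hr, sub_add_cancel]
  have F1 : ∀ r, 0 ≤ r → ∀ θ, LL (hs (KK K ℓ)) (x0 + r • ev (θ - Real.pi / 2)) =
      2 * r + κ1 + EE p1 r θ := by
    intro r hr θ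
    rw [LL_translate hK1c, LL_sym hFp1 hp1per (fun θ => (hpos θ).le.trans (hle θ)) hr,
      sub_add_cancel]
  have hpair : Pair p p1 (M + M1 + ‖x0‖) := by
    refine ⟨hpc, hp1c, hx0', hp1per, hM2, fun θ => (hpos θ).le,
      fun θ => (hpos θ).le.trans (hle θ), fun θ => (abs_le.1 (hbp θ)).2,
      fun θ => (abs_le.1 (hbp1 θ)).2, ?_⟩
    filter_upwards [eventually_gt_atTop ((W (KK K ℓ) - κ1) / 2 +
      Real.pi * (M + M1 + ‖x0‖))] with s hs1 θ θ' r r' hr hr' e e'
    have hEle : EE p r θ ≤ Real.pi * (M + M1 + ‖x0‖) :=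
      EE_le' hpc hM2 (fun θ => (abs_le.1 (hbp θ)).2) θ hr.le
    have hw : W (KK K ℓ) < LL (hs (KK K ℓ)) (x0 + r • ev (θ - Real.pi / 2)) := by
      rw [F1 r hr.le θ]
      have := EE_nonneg p1 r θ
      have h5 : 0 < Real.pi * (M + M1 + ‖x0‖) := by positivity
      linarith
    have h1 : LL (hs K) (x0 + r' • ev (θ' - Real.pi / 2)) =
        LL (hs K) (x0 + r • ev (θ - Real.pi / 2)) := by
      rw [F0 r hr.le, F0 r' hr'.le]; linarith
    have h2 := hrel ℓ hℓ _ _ hw h1
    rw [F1 r hr.le, F1 r' hr'.le] at h2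
    linarith
  apply hpair.fourier
  -- the difference is not zero
  intro hcon
  have hall : ∀ θ, p1 θ = p θ := by
    intro θ
    have h1 := hpair.const θ 0
    rw [hcon, sub_self, sub_eq_zero] at h1
    have h2 := (sq_eq_sq₀ ((hpos θ).le.trans (hle θ)) (hpos θ).le).1 h1
    exact h2
  -- a point on the string curve
  obtain ⟨r, hr, hre⟩ := exists_rad hFp 0 (ℓ := ℓ) (by
    have h1 : LL p 0 = W K := by
      have h2 := LL_translate hKc x0 0
      rw [add_zero] at h2
      rw [← h2]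
      unfold LL W
      congr 1
      ext θ
      exact max_eq_left (by linarith [hpos θ])
    rw [h1]; exact hℓ.le)
  rw [← LL_translate hKc] at hre
  have hmem : x0 + r • ev 0 ∈ KK K ℓ := hre.le
  have hmem2 : x0 + r • ev 0 ∈ K := by
    apply mem_of_ip_le hK.cpt hK.cvx hK.ne
    intro θ
    have h1 := le_hs hK1.cpt hmem θ
    have h2 := hall θ
    simp only [hp, hp1] at h2
    linarith
  rw [LL_mem hK hmem2] at hre
  linarith

end Pool.Agent.Q155.Mel
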