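import Mathlib

/-!
Scaling asymptotics of integrals `∫ max (p - s |sin|) 0`.
-/

set_option autoImplicit false
open MeasureTheory Set Filter Topology

namespace Pool.Agent.Q155.Mel

/-- scaling lemma -/
theorem scale_lim (f : ℝ → ℝ → ℝ) (w : ℝ → ℝ) (g : ℝ → ℝ) (R C c : ℝ) (hR : 0 < R)
    (hf : ∀ s, Continuous (f s))
    (hz : ∀ᶠ s in atTop, ∀ z, R ≤ |z| → |z| ≤ Real.pi / 2 * s → f s z = 0)
    (hb : ∀ᶠ s in atTop, ∀ z, |z| ≤ R → |w s * f s z| ≤ C)
    (hl : ∀ z, |z| ≤ R → |z| ≠ c → Tendsto (fun s => w s * f s z) atTop (𝓝 (g z))) :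
    Tendsto (fun s => w s * (s * ∫ y in (-(Real.pi / 2))..(Real.pi / 2), f s (s * y))) atTop
      (𝓝 (∫ z in (-R)..R, g z)) := by
  have hpi := Real.pi_pos
  have h1 : ∀ᶠ s : ℝ in atTop, ∫ z in (-R)..R, w s * f s z =
      w s * (s * ∫ y in (-(Real.pi / 2))..(Real.pi / 2), f s (s * y)) := by
    filter_upwards [hz, eventually_gt_atTop 0, eventually_ge_atTop (R / (Real.pi / 2))]
      with s hs hs0 hs1
    have hs2 : R ≤ Real.pi / 2 * s := by
      rw [div_le_iff₀ (by positivity)] at hs1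
      linarith
    have e1 := intervalIntegral.smul_integral_comp_mul_left (a := -(Real.pi / 2))
      (b := Real.pi / 2) (f s) s
    rw [smul_eq_mul] at e1
    rw [e1, intervalIntegral.integral_const_mul]
    congr 1
    have hi : ∀ a b : ℝ, IntervalIntegrable (f s) volume a b := fun a b =>
      (hf s).intervalIntegrable a b
    rw [← intervalIntegral.integral_add_adjacent_intervals (hi (s * -(Real.pi / 2)) (-R))
      (hi (-R) (s * (Real.pi / 2))),
      ← intervalIntegral.integral_add_adjacent_intervals (hi (-R) R)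
      (hi R (s * (Real.pi / 2)))]
    have z1 : ∫ x in (s * -(Real.pi / 2))..(-R), f s x = 0 := by
      have : ∫ x in (s * -(Real.pi / 2))..(-R), f s x = ∫ x in (s * -(Real.pi / 2))..(-R), (0 : ℝ) := by
        apply intervalIntegral.integral_congr
        intro z hz'
        rw [uIcc_of_le (by linarith)] at hz'
        apply hs z
        · rw [abs_of_nonpos (by linarith [hz'.2])]; linarith [hz'.2]
        · rw [abs_of_nonpos (by linarith [hz'.2])]; linarith [hz'.1]
      rw [this]; simp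
    have z2 : ∫ x in R..(s * (Real.pi / 2)), f s x = 0 := by
      have : ∫ x in R..(s * (Real.pi / 2)), f s x = ∫ x in R..(s * (Real.pi / 2)), (0 : ℝ) := by
        apply intervalIntegral.integral_congr
        intro z hz'
        rw [uIcc_of_le (by linarith)] at hz'
        apply hs z
        · rw [abs_of_nonneg (by linarith [hz'.1])]; linarith [hz'.1]
        · rw [abs_of_nonneg (by linarith [hz'.1])]; linarith [hz'.2]
      rw [this]; simp
    rw [z1, z2]; ring
  refine Tendsto.congr' h1 ?_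
  apply intervalIntegral.tendsto_integral_filter_of_dominated_convergence (fun _ => C)
  · filter_upwards with s
    exact ((hf s).const_smul (w s)).aestronglyMeasurable
  · filter_upwards [hb] with s hs
    filter_upwards with z hz'
    rw [uIoc_of_le (by linarith)] at hz'
    exact hs z (abs_le.2 ⟨by linarith [hz'.1], hz'.2⟩)
  · simp
  · have hc : ∀ᵐ z : ℝ, z ≠ c ∧ z ≠ -c := by
      have h1 : ∀ᵐ z : ℝ, z ≠ c := by
        rw [ae_iff]; simp
      have h2 : ∀ᵐ z : ℝ, z ≠ -c := by
        rw [ae_iff]; simp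
      filter_upwards [h1, h2] with z a b using ⟨a, b⟩
    filter_upwards [hc] with z hzc hz'
    rw [uIoc_of_le (by linarith)] at hz'
    apply hl z (abs_le.2 ⟨by linarith [hz'.1], hz'.2⟩)
    intro h
    rcases abs_choice z with h' | h'
    · exact hzc.1 (h' ▸ h)
    · apply hzc.2
      linarith [h' ▸ h]

theorem int_cut (P : ℝ → ℝ) (hP : Continuous P) {c R : ℝ} (hc : 0 ≤ c) (hR : c ≤ R) :
    ∫ z in (-R)..R, (if |z| < c then P |z| else 0) = 2 * ∫ z in (0 : ℝ)..c, P z := by
  set g : ℝ → ℝ := fun z => if |z| < c then P |z| else 0 with hg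
  have hgm : ∀ a b : ℝ, IntervalIntegrable g volume a b := by
    intro a b
    rw [intervalIntegrable_iff]
    have hcont : Continuous (fun z => P |z|) := hP.comp continuous_abs
    have : g = Set.indicator {z : ℝ | |z| < c} (fun z => P |z|) := by
      ext z; simp [hg, Set.indicator]
    rw [this]
    apply IntegrableOn.indicator
    · exact hcont.integrableOn_uIoc
    · exact measurableSet_lt (by fun_prop) (by fun_prop)
  have h1 : ∫ z in (-R)..(0 : ℝ), g z = ∫ z in (0 : ℝ)..R, g z := by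
    have := intervalIntegral.integral_comp_neg (a := (0 : ℝ)) (b := R) g
    rw [neg_zero] at this
    rw [← this]
    apply intervalIntegral.integral_congr
    intro z _
    simp [hg]
  have h2 : ∫ z in (0 : ℝ)..R, g z = ∫ z in (0 : ℝ)..c, P z := by
    rw [← intervalIntegral.integral_add_adjacent_intervals (hgm 0 c) (hgm c R)]
    have z1 : ∫ z in c..R, g z = 0 := by
      have : ∫ z in c..R, g z = ∫ z in c..R, (0 : ℝ) := by
        apply intervalIntegral.integral_congr
        intro z hz'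
        rw [uIcc_of_le hR] at hz'
        have : ¬ |z| < c := by
          rw [abs_of_nonneg (by linarith [hz'.1])]; exact not_lt.2 hz'.1
        simp [hg, this]
      rw [this]; simp
    have z2 : ∫ z in (0 : ℝ)..c, g z = ∫ z in (0 : ℝ)..c, P z := by
      apply intervalIntegral.integral_congr_ae
      have h1 : ∀ᵐ z : ℝ, z ≠ c := by
        rw [ae_iff]; simp
      filter_upwards [h1] with z hzc hz'
      rw [uIoc_of_le hc] at hz'
      have h3 : |z| = z := abs_of_nonneg hz'.1.le
      have h4 : z < c := lt_of_le_of_ne hz'.2 hzc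
      simp [hg, h3, h4]
    rw [z1, z2, add_zero]
  rw [← intervalIntegral.integral_add_adjacent_intervals (hgm (-R) 0) (hgm 0 R), h1, h2]
  ring

/-- limit of `s |sin (z/s)|` -/
theorem lim_sin (z : ℝ) : Tendsto (fun s : ℝ => s ^ 2 * (|z| - s * |Real.sin (z / s)|)) atTop
    (𝓝 (|z| ^ 3 / 6)) := by
  rw [tendsto_iff_norm_sub_tendsto_zero]
  have hlim : Tendsto (fun s : ℝ => |z| ^ 5 / 100 * s⁻¹ * s⁻¹) atTop (𝓝 0) := by
    have := ((tendsto_inv_atTop_zero (𝕜 := ℝ)).const_mul (|z| ^ 5 / 100)).mul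
      (tendsto_inv_atTop_zero (𝕜 := ℝ))
    simpa using this
  refine squeeze_zero' (Eventually.of_forall fun _ => norm_nonneg _) ?_ hlim
  filter_upwards [eventually_gt_atTop 0, eventually_ge_atTop |z|] with s hs0 hs
  have h1 : |(|z| / s)| ≤ 1 := by
    rw [abs_of_nonneg (by positivity), div_le_one hs0]; exact hs
  have h2 := Real.sin_bound h1
  have h3 : |Real.sin (z / s)| = Real.sin (|z| / s) := by
    have h4 : 0 ≤ |z| / s := by positivity
    have h5 : |z| / s ≤ 1 := (le_abs_self _).trans h1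
    rcases abs_choice z with h | h
    · rw [h] at h4 h5 ⊢
      exact abs_of_nonneg (Real.sin_nonneg_of_nonneg_of_le_pi h4
        (h5.trans (by linarith [Real.pi_gt_three])))
    · rw [h] at h4 h5 ⊢
      have h6 : Real.sin (z / s) = - Real.sin (-z / s) := by
        rw [← Real.sin_neg]; congr 1; ring
      rw [h6, abs_neg]
      exact abs_of_nonneg (Real.sin_nonneg_of_nonneg_of_le_pi h4
        (h5.trans (by linarith [Real.pi_gt_three])))
  rw [h3, Real.norm_eq_abs]
  have h7 : s ^ 2 * (|z| - s * Real.sin (|z| / s)) - |z| ^ 3 / 6 =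
      -(s ^ 3 * (Real.sin (|z| / s) - (|z| / s - (|z| / s) ^ 3 / 6))) := by
    field_simp; ring
  rw [h7, abs_neg, abs_mul, abs_of_pos (by positivity : (0 : ℝ) < s ^ 3)]
  calc s ^ 3 * |Real.sin (|z| / s) - (|z| / s - (|z| / s) ^ 3 / 6)|
      ≤ s ^ 3 * (|(|z| / s)| ^ 5 / 100) := by gcongr
    _ = |z| ^ 5 / 100 * s⁻¹ * s⁻¹ := by
        rw [abs_of_nonneg (by positivity : (0 : ℝ) ≤ |z| / s)]
        field_simp

theorem lim_cos (a : ℝ) : Tendsto (fun s : ℝ => s ^ 2 * (Real.cos (a / s) - 1)) atTop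
    (𝓝 (-(a ^ 2 / 2))) := by
  rw [tendsto_iff_norm_sub_tendsto_zero]
  have hlim : Tendsto (fun s : ℝ => |a| ^ 4 * (5 / 96) * s⁻¹ * s⁻¹) atTop (𝓝 0) := by
    have := ((tendsto_inv_atTop_zero (𝕜 := ℝ)).const_mul (|a| ^ 4 * (5 / 96))).mul
      (tendsto_inv_atTop_zero (𝕜 := ℝ))
    simpa using this
  refine squeeze_zero' (Eventually.of_forall fun _ => norm_nonneg _) ?_ hlim
  filter_upwards [eventually_gt_atTop 0, eventually_ge_atTop |a|] with s hs0 hs
  have h1 : |a / s| ≤ 1 := by
    rw [abs_div, abs_of_pos hs0, div_le_one hs0]; exact hs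
  have h2 := Real.cos_bound h1
  rw [Real.norm_eq_abs]
  have h7 : s ^ 2 * (Real.cos (a / s) - 1) - -(a ^ 2 / 2) =
      s ^ 2 * (Real.cos (a / s) - (1 - (a / s) ^ 2 / 2)) := by
    field_simp; ring
  rw [h7, abs_mul, abs_of_pos (by positivity : (0 : ℝ) < s ^ 2)]
  calc s ^ 2 * |Real.cos (a / s) - (1 - (a / s) ^ 2 / 2)|
      ≤ s ^ 2 * (|a / s| ^ 4 * (5 / 96)) := by gcongr
    _ = |a| ^ 4 * (5 / 96) * s⁻¹ * s⁻¹ := by
        rw [abs_div, abs_of_pos hs0]
        field_simp

theorem lim_sin0 (z : ℝ) : Tendsto (fun s : ℝ => s * |Real.sin (z / s)|) atTop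
    (𝓝 |z|) := by
  have h1 := (lim_sin z).mul ((tendsto_inv_atTop_zero (𝕜 := ℝ)).mul
    (tendsto_inv_atTop_zero (𝕜 := ℝ)))
  rw [mul_zero, mul_zero] at h1
  have h2 : Tendsto (fun s : ℝ => |z| - s ^ 2 * (|z| - s * |Real.sin (z / s)|) * (s⁻¹ * s⁻¹))
      atTop (𝓝 (|z| - 0)) := tendsto_const_nhds.sub h1
  rw [sub_zero] at h2
  refine Tendsto.congr' ?_ h2
  filter_upwards [eventually_gt_atTop 0] with s hs
  field_simp
  ring

theorem sin_low {M s z : ℝ} (hs : 0 < s) (h1 : Real.pi * M ≤ |z|)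
    (h2 : |z| ≤ Real.pi / 2 * s) : 2 * M ≤ s * |Real.sin (z / s)| := by
  have hpi := Real.pi_pos
  have h3 : |z / s| ≤ Real.pi / 2 := by
    rw [abs_div, abs_of_pos hs, div_le_iff₀ hs]; exact h2
  have h4 := Real.mul_abs_le_abs_sin h3
  rw [abs_div, abs_of_pos hs] at h4
  calc 2 * M = s * (2 / Real.pi * (Real.pi * M / s)) := by field_simp
    _ ≤ s * (2 / Real.pi * (|z| / s)) := by gcongr
    _ ≤ s * |Real.sin (z / s)| := by gcongr

theorem sin_up {s z : ℝ} (hs : 0 < s) : s * |Real.sin (z / s)| ≤ |z| := by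
  have h : |Real.sin (z / s)| ≤ |z / s| := Real.abs_sin_le_abs
  rw [abs_div, abs_of_pos hs] at h
  calc s * |Real.sin (z / s)| ≤ s * (|z| / s) := by gcongr
    _ = |z| := by field_simp

end Pool.Agent.Q155.Mel
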