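import Pool.Agent.Y508.Basic

/-!
First order asymptotics of the length function at infinity.
-/

set_option autoImplicit false
open MeasureTheory Set Filter Topology
open Pool.Agent.Y508

namespace Pool.Agent.Q155.Mel

/-- length of the string around the body with support function `h` and the point `P` -/
noncomputable def LL (h : ℝ → ℝ) (P : E2) : ℝ :=
  ∫ θ in (0 : ℝ)..(2 * Real.pi), max (h θ) (ip P θ)

/-- half turn integral -/
noncomputable def AA (h : ℝ → ℝ) (φ : ℝ) : ℝ :=
  ∫ θ in (φ + Real.pi / 2)..(φ + 3 * Real.pi / 2), h θ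

/-- continuous, bounded, `2π`-periodic -/
structure Fn (h : ℝ → ℝ) (M : ℝ) : Prop where
  cont : Continuous h
  per : Function.Periodic h (2 * Real.pi)
  hM : 0 < M
  bd : ∀ θ, |h θ| ≤ M

variable {h : ℝ → ℝ} {M : ℝ}

theorem LL_split (hh : Fn h M) (P : E2) (φ : ℝ) :
    LL h P = (∫ θ in (φ - Real.pi / 2)..(φ + Real.pi / 2), max (h θ) (ip P θ)) +
      ∫ θ in (φ + Real.pi / 2)..(φ + 3 * Real.pi / 2), max (h θ) (ip P θ) := by
  have hc := hh.cont
  have hip := cont_ip P
  have hper : Function.Periodic (fun θ => max (h θ) (ip P θ)) (2 * Real.pi) := by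
    intro θ
    simp only [hh.per θ, ip_two_pi]
  rw [intervalIntegral.integral_add_adjacent_intervals
    (by apply Continuous.intervalIntegrable; fun_prop)
    (by apply Continuous.intervalIntegrable; fun_prop)]
  have h1 := hper.intervalIntegral_add_eq (φ - Real.pi / 2) 0
  have e1 : φ - Real.pi / 2 + 2 * Real.pi = φ + 3 * Real.pi / 2 := by ring
  rw [e1, zero_add] at h1
  rw [h1]; rfl

theorem int_ip (P : E2) (φ : ℝ) :
    ∫ θ in (φ - Real.pi / 2)..(φ + Real.pi / 2), ip P θ = 2 * ip P φ := by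
  unfold ip
  rw [intervalIntegral.integral_add (by apply Continuous.intervalIntegrable; fun_prop)
    (by apply Continuous.intervalIntegrable; fun_prop), intervalIntegral.integral_const_mul,
    intervalIntegral.integral_const_mul, integral_cos, integral_sin, Real.sin_add_pi_div_two,
    Real.sin_sub_pi_div_two, Real.cos_add_pi_div_two, Real.cos_sub_pi_div_two]
  ring

theorem LL_ge (hh : Fn h M) (P : E2) (φ : ℝ) : 2 * ip P φ + AA h φ ≤ LL h P := by
  have hc := hh.cont
  have hip := cont_ip P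
  have hpi := Real.pi_pos
  rw [LL_split hh P φ, ← int_ip]
  unfold AA
  apply add_le_add
  · apply intervalIntegral.integral_mono_on (by linarith)
    · apply Continuous.intervalIntegrable; fun_prop
    · apply Continuous.intervalIntegrable; fun_prop
    · intro y _; exact le_max_right _ _
  · apply intervalIntegral.integral_mono_on (by linarith)
    · apply Continuous.intervalIntegrable; fun_prop
    · apply Continuous.intervalIntegrable; fun_prop
    · intro y _; exact le_max_left _ _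

theorem ip_smul_ev (r φ θ : ℝ) : ip (r • ev φ) θ = r * Real.cos (θ - φ) := by
  rw [ip_smul, ip_ev]

theorem AA_abs (hh : Fn h M) (φ : ℝ) : |AA h φ| ≤ Real.pi * M := by
  have hpi := Real.pi_pos
  have := intervalIntegral.norm_integral_le_of_norm_le_const (a := φ + Real.pi / 2)
    (b := φ + 3 * Real.pi / 2) (f := h) (C := M) (fun x _ => by
      rw [Real.norm_eq_abs]; exact hh.bd x)
  rw [Real.norm_eq_abs] at this
  refine this.trans (le_of_eq ?_)
  have e : φ + 3 * Real.pi / 2 - (φ + Real.pi / 2) = Real.pi := by ring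
  rw [e, abs_of_pos hpi]; ring

/-- exact decomposition for points given in polar coordinates -/
theorem LL_polar (hh : Fn h M) (r φ : ℝ) : LL h (r • ev φ) - 2 * r =
    (∫ θ in (φ - Real.pi / 2)..(φ + Real.pi / 2), max (h θ - r * Real.cos (θ - φ)) 0) +
      ∫ θ in (φ + Real.pi / 2)..(φ + 3 * Real.pi / 2), max (h θ) (r * Real.cos (θ - φ)) := by
  have hc := hh.cont
  rw [LL_split hh (r • ev φ) φ]
  simp only [ip_smul_ev]
  have h1 := int_ip (r • ev φ) φ
  simp only [ip_smul_ev] at h1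
  rw [sub_self, Real.cos_zero, mul_one] at h1
  have h2 : ∫ θ in (φ - Real.pi / 2)..(φ + Real.pi / 2), max (h θ) (r * Real.cos (θ - φ)) =
      (∫ θ in (φ - Real.pi / 2)..(φ + Real.pi / 2), max (h θ - r * Real.cos (θ - φ)) 0) +
      ∫ θ in (φ - Real.pi / 2)..(φ + Real.pi / 2), r * Real.cos (θ - φ) := by
    rw [← intervalIntegral.integral_add (by apply Continuous.intervalIntegrable; fun_prop)
      (by apply Continuous.intervalIntegrable; fun_prop)]
    congr 1
    ext θ
    rw [← max_add_add_right, sub_add_cancel, zero_add]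
  rw [h2, h1]
  ring

theorem cos_nonneg_arc {φ θ : ℝ} (h1 : φ - Real.pi / 2 ≤ θ) (h2 : θ ≤ φ + Real.pi / 2) :
    0 ≤ Real.cos (θ - φ) :=
  Real.cos_nonneg_of_neg_pi_div_two_le_of_le (by linarith) (by linarith)

theorem cos_nonpos_arc {φ θ : ℝ} (h1 : φ + Real.pi / 2 ≤ θ) (h2 : θ ≤ φ + 3 * Real.pi / 2) :
    Real.cos (θ - φ) ≤ 0 :=
  Real.cos_nonpos_of_pi_div_two_le_of_le (by linarith) (by linarith)

theorem LL_le (hh : Fn h M) {r : ℝ} (hr : 0 ≤ r) (φ : ℝ) :
    LL h (r • ev φ) ≤ 2 * r + 2 * (Real.pi * M) := by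
  have hc := hh.cont
  have hpi := Real.pi_pos
  have h0 := LL_polar hh r φ
  have h1 : ∫ θ in (φ - Real.pi / 2)..(φ + Real.pi / 2), max (h θ - r * Real.cos (θ - φ)) 0 ≤
      ∫ θ in (φ - Real.pi / 2)..(φ + Real.pi / 2), M := by
    apply intervalIntegral.integral_mono_on (by linarith)
    · apply Continuous.intervalIntegrable; fun_prop
    · apply Continuous.intervalIntegrable; fun_prop
    · intro θ hθ
      apply max_le _ hh.hM.le
      have := mul_nonneg hr (cos_nonneg_arc hθ.1 hθ.2)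
      linarith [(abs_le.1 (hh.bd θ)).2]
  have h2 : ∫ θ in (φ + Real.pi / 2)..(φ + 3 * Real.pi / 2), max (h θ) (r * Real.cos (θ - φ)) ≤
      ∫ θ in (φ + Real.pi / 2)..(φ + 3 * Real.pi / 2), M := by
    apply intervalIntegral.integral_mono_on (by linarith)
    · apply Continuous.intervalIntegrable; fun_prop
    · apply Continuous.intervalIntegrable; fun_prop
    · intro θ hθ
      apply max_le ((abs_le.1 (hh.bd θ)).2)
      have := mul_nonpos_of_nonneg_of_nonpos hr (cos_nonpos_arc hθ.1 hθ.2)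
      linarith [hh.hM]
  rw [intervalIntegral.integral_const, smul_eq_mul] at h1 h2
  have e1 : φ + Real.pi / 2 - (φ - Real.pi / 2) = Real.pi := by ring
  have e2 : φ + 3 * Real.pi / 2 - (φ + Real.pi / 2) = Real.pi := by ring
  rw [e1] at h1
  rw [e2] at h2
  linarith

theorem LL_ge' (hh : Fn h M) (r φ : ℝ) : 2 * r - Real.pi * M ≤ LL h (r • ev φ) := by
  have h1 := LL_ge hh (r • ev φ) φ
  rw [ip_smul_ev, sub_self, Real.cos_zero, mul_one] at h1
  have h2 := (abs_le.1 (AA_abs hh φ)).1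
  linarith

theorem lim_LL (hh : Fn h M) (φ : ℝ) :
    Tendsto (fun r : ℝ => LL h (r • ev φ) - 2 * r) atTop (𝓝 (AA h φ)) := by
  have hc := hh.cont
  have hpi := Real.pi_pos
  have L1 : Tendsto (fun r : ℝ => ∫ θ in (φ - Real.pi / 2)..(φ + Real.pi / 2),
      max (h θ - r * Real.cos (θ - φ)) 0) atTop
      (𝓝 (∫ θ in (φ - Real.pi / 2)..(φ + Real.pi / 2), (0 : ℝ))) := by
    apply intervalIntegral.tendsto_integral_filter_of_dominated_convergence (fun _ => M)
    · filter_upwards with r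
      apply Continuous.aestronglyMeasurable; fun_prop
    · filter_upwards [eventually_ge_atTop 0] with r hr
      filter_upwards with θ hθ
      rw [uIoc_of_le (by linarith)] at hθ
      rw [Real.norm_eq_abs, abs_of_nonneg (le_max_right _ _)]
      apply max_le _ hh.hM.le
      have := mul_nonneg hr (cos_nonneg_arc hθ.1.le hθ.2)
      linarith [(abs_le.1 (hh.bd θ)).2]
    · simp
    · have h1 : ∀ᵐ z : ℝ, z ≠ φ + Real.pi / 2 := by
        rw [ae_iff]; simp
      filter_upwards [h1] with θ hne hθ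
      rw [uIoc_of_le (by linarith)] at hθ
      have hlt : θ < φ + Real.pi / 2 := lt_of_le_of_ne hθ.2 hne
      have hcp : 0 < Real.cos (θ - φ) :=
        Real.cos_pos_of_mem_Ioo ⟨by linarith [hθ.1], by linarith⟩
      refine Tendsto.congr' ?_ tendsto_const_nhds
      filter_upwards [eventually_ge_atTop (M / Real.cos (θ - φ))] with r hr
      rw [div_le_iff₀ hcp] at hr
      rw [max_eq_right]
      linarith [(abs_le.1 (hh.bd θ)).2]
  have L2 : Tendsto (fun r : ℝ => ∫ θ in (φ + Real.pi / 2)..(φ + 3 * Real.pi / 2),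
      max (h θ) (r * Real.cos (θ - φ))) atTop
      (𝓝 (∫ θ in (φ + Real.pi / 2)..(φ + 3 * Real.pi / 2), h θ)) := by
    apply intervalIntegral.tendsto_integral_filter_of_dominated_convergence (fun _ => M)
    · filter_upwards with r
      apply Continuous.aestronglyMeasurable; fun_prop
    · filter_upwards [eventually_ge_atTop 0] with r hr
      filter_upwards with θ hθ
      rw [uIoc_of_le (by linarith)] at hθ
      have hb := abs_le.1 (hh.bd θ)
      rw [Real.norm_eq_abs, abs_le]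
      have := mul_nonpos_of_nonneg_of_nonpos hr (cos_nonpos_arc hθ.1.le hθ.2)
      exact ⟨hb.1.trans (le_max_left _ _), max_le hb.2 (by linarith [hh.hM])⟩
    · simp
    · have h1 : ∀ᵐ z : ℝ, z ≠ φ + 3 * Real.pi / 2 := by
        rw [ae_iff]; simp
      filter_upwards [h1] with θ hne hθ
      rw [uIoc_of_le (by linarith)] at hθ
      have hlt : θ < φ + 3 * Real.pi / 2 := lt_of_le_of_ne hθ.2 hne
      have hcp : Real.cos (θ - φ) < 0 := by
        have h2 : 0 < Real.cos (θ - φ - Real.pi) :=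
          Real.cos_pos_of_mem_Ioo ⟨by linarith [hθ.1], by linarith⟩
        rw [Real.cos_sub_pi] at h2
        linarith
      refine Tendsto.congr' ?_ tendsto_const_nhds
      filter_upwards [eventually_ge_atTop (M / (-Real.cos (θ - φ)))] with r hr
      rw [div_le_iff₀ (by linarith)] at hr
      rw [max_eq_left]
      linarith [(abs_le.1 (hh.bd θ)).1]
  have L3 := L1.add L2
  simp only [intervalIntegral.integral_const, smul_zero, zero_add] at L3
  unfold AA
  refine L3.congr fun r => ?_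
  rw [← LL_polar hh]

theorem cont_LL (hh : Fn h M) : Continuous (LL h) := by
  unfold LL
  apply intervalIntegral.continuous_parametric_intervalIntegral_of_continuous'
  have h1 := hh.cont
  have h2 : Continuous (fun p : E2 × ℝ => ip p.1 p.2) :=
    cont_ip2.comp (by fun_prop : Continuous fun p : E2 × ℝ => (p.2, p.1))
  exact (h1.comp continuous_snd).max h2

theorem exists_rad (hh : Fn h M) (φ : ℝ) {ℓ : ℝ} (h0 : LL h 0 ≤ ℓ) :
    ∃ r : ℝ, 0 ≤ r ∧ LL h (r • ev φ) = ℓ := by
  have hcont : Continuous (fun r : ℝ => LL h (r • ev φ)) := by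
    have := cont_LL hh
    fun_prop
  set R := max 0 ((ℓ + Real.pi * M) / 2) with hR
  have h1 : LL h ((0 : ℝ) • ev φ) ≤ ℓ := by rw [zero_smul]; exact h0
  have h2 : ℓ ≤ LL h (R • ev φ) := by
    have := LL_ge' hh R φ
    have h3 : (ℓ + Real.pi * M) / 2 ≤ R := le_max_right _ _
    linarith
  obtain ⟨r, hr, hre⟩ := intermediate_value_Icc (f := fun r : ℝ => LL h (r • ev φ))
    (le_max_left 0 _ : (0 : ℝ) ≤ R) hcont.continuousOn ⟨h1, h2⟩
  exact ⟨r, hr.1, hre⟩

/-- the radius as function of the length -/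
theorem exists_radf (hh : Fn h M) (φ : ℝ) : ∃ r : ℝ → ℝ, (∀ ℓ, LL h 0 ≤ ℓ →
    0 ≤ r ℓ ∧ LL h (r ℓ • ev φ) = ℓ) ∧ Tendsto r atTop atTop ∧
    Tendsto (fun ℓ => ℓ - 2 * r ℓ) atTop (𝓝 (AA h φ)) := by
  have : ∀ ℓ, ∃ r : ℝ, LL h 0 ≤ ℓ → 0 ≤ r ∧ LL h (r • ev φ) = ℓ := by
    intro ℓ
    by_cases hs : LL h 0 ≤ ℓ
    · obtain ⟨r, hr⟩ := exists_rad hh φ hs
      exact ⟨r, fun _ => hr⟩
    · exact ⟨0, fun h => absurd h hs⟩
  choose r hr using this
  have htop : Tendsto r atTop atTop := by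
    have h1 : Tendsto (fun ℓ : ℝ => ℓ / 2 - Real.pi * M) atTop atTop :=
      tendsto_atTop_add_const_right _ _ (tendsto_id.atTop_div_const (by norm_num))
    refine tendsto_atTop_mono' _ ?_ h1
    filter_upwards [eventually_ge_atTop (LL h 0)] with ℓ hℓ
    obtain ⟨a, b⟩ := hr ℓ hℓ
    have := LL_le hh a φ
    linarith
  refine ⟨r, hr, htop, ?_⟩
  refine Tendsto.congr' ?_ ((lim_LL hh φ).comp htop)
  filter_upwards [eventually_ge_atTop (LL h 0)] with ℓ hℓ
  obtain ⟨a, b⟩ := hr ℓ hℓ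
  simp only [Function.comp, b]

theorem AA_deriv (hc : Continuous h) (φ : ℝ) :
    HasDerivAt (AA h) (h (φ + 3 * Real.pi / 2) - h (φ + Real.pi / 2)) φ := by
  have hi : ∀ a b : ℝ, IntervalIntegrable h volume a b := fun a b => hc.intervalIntegrable a b
  have h0 : ∀ x, HasDerivAt (fun u => ∫ θ in (0 : ℝ)..u, h θ) (h x) x := fun x =>
    intervalIntegral.integral_hasDerivAt_right (hi 0 x)
      (hc.stronglyMeasurableAtFilter _ _) hc.continuousAt
  have h1 : HasDerivAt (fun φ : ℝ => ∫ θ in (0 : ℝ)..(φ + 3 * Real.pi / 2), h θ)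
      (h (φ + 3 * Real.pi / 2)) φ :=
    (h0 (φ + 3 * Real.pi / 2)).comp_add_const φ (3 * Real.pi / 2)
  have h2 : HasDerivAt (fun φ : ℝ => ∫ θ in (0 : ℝ)..(φ + Real.pi / 2), h θ)
      (h (φ + Real.pi / 2)) φ :=
    (h0 (φ + Real.pi / 2)).comp_add_const φ (Real.pi / 2)
  have h3 := h1.sub h2
  refine h3.congr_of_eventuallyEq ?_
  filter_upwards with x
  unfold AA
  simp only [Pi.sub_apply]
  rw [intervalIntegral.integral_interval_sub_left (hi _ _) (hi _ _)]

/-- Step 1 -/
theorem diff_per {h1 : ℝ → ℝ} (hh : Fn h M) (hh1 : Fn h1 M) (w : ℝ)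
    (rel : ∀ P P', w < LL h1 P → LL h P' = LL h P → LL h1 P' = LL h1 P) (θ : ℝ) :
    h1 (θ + Real.pi) - h (θ + Real.pi) = h1 θ - h θ := by
  have key : ∀ φ φ', AA h1 φ - AA h φ = AA h1 φ' - AA h φ' := by
    intro φ φ'
    obtain ⟨r, hr, hrt, hrl⟩ := exists_radf hh φ
    obtain ⟨r', hr', hrt', hrl'⟩ := exists_radf hh φ'
    have L := ((lim_LL hh1 φ).comp hrt).sub hrl
    have L' := ((lim_LL hh1 φ').comp hrt').sub hrl'
    refine tendsto_nhds_unique L (Tendsto.congr' ?_ L')
    filter_upwards [eventually_ge_atTop (LL h 0), hrt.eventually_gt_atTop ((w + Real.pi * M) / 2)]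
      with ℓ hℓ hgt
    obtain ⟨a, b⟩ := hr ℓ hℓ
    obtain ⟨a', b'⟩ := hr' ℓ hℓ
    have hw : w < LL h1 (r ℓ • ev φ) := by
      have := LL_ge' hh1 (r ℓ) φ
      linarith
    have := rel _ _ hw (b'.trans b.symm)
    simp only [Function.comp, this]
    ring
  have hc : (fun φ => AA h1 φ - AA h φ) = fun _ => AA h1 0 - AA h 0 := by
    ext φ; exact key φ 0
  have hd := (AA_deriv hh1.cont (θ - Real.pi / 2)).sub (AA_deriv hh.cont (θ - Real.pi / 2))
  have hd2 : HasDerivAt (fun φ => AA h1 φ - AA h φ) 0 (θ - Real.pi / 2) := by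
    rw [hc]; exact hasDerivAt_const _ _
  have := hd.unique hd2
  have e1 : θ - Real.pi / 2 + 3 * Real.pi / 2 = θ + Real.pi := by ring
  have e2 : θ - Real.pi / 2 + Real.pi / 2 = θ := by ring
  rw [e1, e2] at this
  linarith

/-- Step 1' -/
theorem centre_rel (hh : Fn h M) (w : ℝ) (H : ℝ → ℝ → ℝ)
    (h1 : ∀ ℓ, w < ℓ → ∀ φ, H ℓ (φ + Real.pi) - h (φ + Real.pi) = H ℓ φ - h φ)
    (h2 : ∀ ℓ, w < ℓ → ∀ φ, H ℓ φ ≤ (ℓ - AA h φ) / 2)
    (h3 : ∀ ℓ, w < ℓ → ∀ φ r, 0 ≤ r → LL h (r • ev φ) = ℓ → r ≤ H ℓ φ) (φ : ℝ) :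
    h (φ + Real.pi) - h φ = (AA h φ - AA h (φ + Real.pi)) / 2 := by
  have key : ∀ φ, Tendsto (fun ℓ => H ℓ φ - ℓ / 2) atTop (𝓝 (-(AA h φ / 2))) := by
    intro φ
    obtain ⟨r, hr, hrt, hrl⟩ := exists_radf hh φ
    have L := (hrl.div_const 2).neg
    refine tendsto_of_tendsto_of_tendsto_of_le_of_le' L tendsto_const_nhds ?_ ?_
    · filter_upwards [eventually_ge_atTop (LL h 0), eventually_gt_atTop w] with ℓ hℓ hw
      obtain ⟨a, b⟩ := hr ℓ hℓ
      have := h3 ℓ hw φ _ a b
      linarith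
    · filter_upwards [eventually_gt_atTop w] with ℓ hw
      have := h2 ℓ hw φ
      linarith
  have L := (key (φ + Real.pi)).sub (key φ)
  have L2 : Tendsto (fun ℓ => H ℓ (φ + Real.pi) - ℓ / 2 - (H ℓ φ - ℓ / 2)) atTop
      (𝓝 (h (φ + Real.pi) - h φ)) := by
    refine Tendsto.congr' ?_ tendsto_const_nhds
    filter_upwards [eventually_gt_atTop w] with ℓ hw
    have := h1 ℓ hw φ
    linarith
  have := tendsto_nhds_unique L2 L
  rw [this]; ring

/-- the centre -/
theorem exists_centre (hh : Fn h M)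
    (hr : ∀ φ, h (φ + Real.pi) - h φ = (AA h φ - AA h (φ + Real.pi)) / 2) :
    ∃ x0 : E2, ∀ θ, h (θ + Real.pi) - ip x0 (θ + Real.pi) = h θ - ip x0 θ := by
  set d : ℝ → ℝ := fun φ => h (φ + Real.pi) - h φ with hd
  have hanti : ∀ φ, d (φ + Real.pi) = - d φ := by
    intro φ
    simp only [hd]
    have e : φ + Real.pi + Real.pi = φ + 2 * Real.pi := by ring
    rw [e, hh.per φ]; ring
  have hder : ∀ φ, HasDerivAt d (d (φ + Real.pi / 2)) φ := by
    intro φ
    have h1 := AA_deriv hh.cont φ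
    have h2 : HasDerivAt (fun φ => AA h (φ + Real.pi)) (h (φ + Real.pi + 3 * Real.pi / 2) -
        h (φ + Real.pi + Real.pi / 2)) φ :=
      (AA_deriv hh.cont (φ + Real.pi)).comp_add_const φ Real.pi
    have h3 := (h1.sub h2).div_const 2
    have h4 : (h (φ + 3 * Real.pi / 2) - h (φ + Real.pi / 2) -
      (h (φ + Real.pi + 3 * Real.pi / 2) - h (φ + Real.pi + Real.pi / 2))) / 2 =
        d (φ + Real.pi / 2) := by
      have e1 : φ + Real.pi + 3 * Real.pi / 2 = φ + Real.pi / 2 + 2 * Real.pi := by ring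
      have e2 : φ + Real.pi + Real.pi / 2 = φ + 3 * Real.pi / 2 := by ring
      have e3 : φ + Real.pi / 2 + Real.pi = φ + 3 * Real.pi / 2 := by ring
      simp only [hd]
      rw [e1, e2, e3, hh.per]
      ring
    rw [h4] at h3
    refine h3.congr_of_eventuallyEq ?_
    filter_upwards with x
    exact hr x
  set e : ℝ → ℝ := fun φ => d (φ + Real.pi / 2) with he
  have hder2 : ∀ φ, HasDerivAt e (- d φ) φ := by
    intro φ
    have h1 : HasDerivAt e (d (φ + Real.pi / 2 + Real.pi / 2)) φ :=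
      (hder (φ + Real.pi / 2)).comp_add_const φ (Real.pi / 2)
    have e1 : φ + Real.pi / 2 + Real.pi / 2 = φ + Real.pi := by ring
    rw [e1, hanti] at h1
    exact h1
  have c1 : ∀ φ, d φ * Real.cos φ - e φ * Real.sin φ = d 0 := by
    have hdv : ∀ φ, HasDerivAt (fun φ => d φ * Real.cos φ - e φ * Real.sin φ) 0 φ := by
      intro φ
      have := ((hder φ).mul (Real.hasDerivAt_cos φ)).sub ((hder2 φ).mul (Real.hasDerivAt_sin φ))
      refine this.congr_deriv ?_
      simp only [he]; ring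
    intro φ
    have := is_const_of_deriv_eq_zero (fun x => (hdv x).differentiableAt)
      (fun x => (hdv x).deriv) φ 0
    simpa using this
  have c2 : ∀ φ, d φ * Real.sin φ + e φ * Real.cos φ = e 0 := by
    have hdv : ∀ φ, HasDerivAt (fun φ => d φ * Real.sin φ + e φ * Real.cos φ) 0 φ := by
      intro φ
      have := ((hder φ).mul (Real.hasDerivAt_sin φ)).add ((hder2 φ).mul (Real.hasDerivAt_cos φ))
      refine this.congr_deriv ?_
      simp only [he]; ring
    intro φ
    have := is_const_of_deriv_eq_zero (fun x => (hdv x).differentiableAt)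
      (fun x => (hdv x).deriv) φ 0
    simpa using this
  refine ⟨pt (-(d 0) / 2) (-(e 0) / 2), fun θ => ?_⟩
  have h1 : d θ = d 0 * Real.cos θ + e 0 * Real.sin θ := by
    rw [← c1 θ, ← c2 θ]
    have := Real.sin_sq_add_cos_sq θ
    linear_combination (-(d θ)) * this
  rw [ip_add_pi]
  have h2 : ip (pt (-(d 0) / 2) (-(e 0) / 2)) θ = -(d θ) / 2 := by
    rw [h1]; simp only [ip, pt_zero, pt_one]; ring
  rw [h2]
  simp only [hd]
  ring

end Pool.Agent.Q155.Mel
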