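import Pool.Agent.Q155.Mel.Asym2

/-!
Exchange of integrals and the main analytic statement.
-/

set_option autoImplicit false
open MeasureTheory Set Filter Topology

namespace Pool.Agent.Q155.Mel

theorem swap_cont (F : ℝ → ℝ → ℝ) (hF : Continuous (Function.uncurry F)) (a b c d : ℝ) :
    ∫ x in a..b, ∫ y in c..d, F x y = ∫ y in c..d, ∫ x in a..b, F x y := by
  apply MeasureTheory.intervalIntegral_intervalIntegral_swap
  apply IntegrableOn.mono_set (t := uIcc a b ×ˢ uIcc c d)
  · exact hF.continuousOn.integrableOn_compact (isCompact_uIcc.prod isCompact_uIcc)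
  · exact prod_mono uIoc_subset_uIcc uIoc_subset_uIcc

theorem cos_shift_int (k : ℝ) (β s c : ℝ) :
    ∫ y in (-(Real.pi / 2))..(Real.pi / 2), Real.cos (β - k * y) * max (c - s * |Real.sin y|) 0 =
      Real.cos β * ek k s c := by
  have hodd : ∫ y in (-(Real.pi / 2))..(Real.pi / 2),
      Real.sin (k * y) * max (c - s * |Real.sin y|) 0 = 0 := by
    have h := intervalIntegral.integral_comp_neg (a := -(Real.pi / 2)) (b := Real.pi / 2)
      (fun y => Real.sin (k * y) * max (c - s * |Real.sin y|) 0)
    rw [neg_neg] at h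
    have h2 : ∫ y in (-(Real.pi / 2))..(Real.pi / 2),
      Real.sin (k * -y) * max (c - s * |Real.sin (-y)|) 0 =
      -∫ y in (-(Real.pi / 2))..(Real.pi / 2),
      Real.sin (k * y) * max (c - s * |Real.sin y|) 0 := by
      rw [← intervalIntegral.integral_neg]
      congr 1
      ext y
      rw [Real.sin_neg, abs_neg, mul_neg, Real.sin_neg]; ring
    rw [h2] at h
    linarith
  have e : (fun y => Real.cos (β - k * y) * max (c - s * |Real.sin y|) 0) = fun y =>
      Real.cos β * (Real.cos (k * y) * max (c - s * |Real.sin y|) 0) +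
      Real.sin β * (Real.sin (k * y) * max (c - s * |Real.sin y|) 0) := by
    ext y; rw [Real.cos_sub]; ring
  rw [e, intervalIntegral.integral_add (by apply Continuous.intervalIntegrable; fun_prop)
    (by apply Continuous.intervalIntegrable; fun_prop),
    intervalIntegral.integral_const_mul, intervalIntegral.integral_const_mul, hodd]
  unfold ek
  ring

theorem cos_per (m : ℤ) (α : ℝ) : Function.Periodic (fun θ : ℝ => Real.cos (2 * m * θ - α))
    Real.pi := by
  intro θ
  simp only
  have : 2 * (m : ℝ) * (θ + Real.pi) - α = (2 * m * θ - α) + m * (2 * Real.pi) := by ring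
  rw [this, Real.cos_add_int_mul_two_pi]

theorem swap_EE {p : ℝ → ℝ} (hp : Continuous p) (hper : Function.Periodic p Real.pi) (m : ℤ)
    (α s : ℝ) :
    ∫ θ in (0 : ℝ)..Real.pi, Real.cos (2 * m * θ - α) * EE p s θ =
      ∫ θ in (0 : ℝ)..Real.pi, Real.cos (2 * m * θ - α) * ek (2 * m) s (p θ) := by
  have e1 : ∫ θ in (0 : ℝ)..Real.pi, Real.cos (2 * m * θ - α) * EE p s θ =
      ∫ θ in (0 : ℝ)..Real.pi, ∫ y in (-(Real.pi / 2))..(Real.pi / 2),
        Real.cos (2 * m * θ - α) * max (p (θ + y) - s * |Real.sin y|) 0 := by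
    congr 1
    ext θ
    rw [intervalIntegral.integral_const_mul]; rfl
  have e2 : ∫ θ in (0 : ℝ)..Real.pi, Real.cos (2 * m * θ - α) * ek (2 * m) s (p θ) =
      ∫ θ in (0 : ℝ)..Real.pi, ∫ y in (-(Real.pi / 2))..(Real.pi / 2),
        Real.cos (2 * m * θ - α - 2 * m * y) * max (p θ - s * |Real.sin y|) 0 := by
    congr 1
    ext θ
    rw [← cos_shift_int]
  rw [e1, e2, swap_cont _ (by unfold Function.uncurry; fun_prop),
    swap_cont (fun θ y => Real.cos (2 * m * θ - α - 2 * m * y) * max (p θ - s * |Real.sin y|) 0)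
      (by unfold Function.uncurry; fun_prop)]
  congr 1
  ext y
  have hP : Function.Periodic (fun θ : ℝ => Real.cos (2 * m * θ - α - 2 * m * y) *
      max (p θ - s * |Real.sin y|) 0) Real.pi := by
    intro θ
    simp only [hper θ]
    have := cos_per m (α + 2 * m * y) θ
    simp only at this
    have e3 : 2 * (m : ℝ) * (θ + Real.pi) - α - 2 * m * y =
      2 * m * (θ + Real.pi) - (α + 2 * m * y) := by ring
    have e4 : 2 * (m : ℝ) * θ - α - 2 * m * y =
      2 * m * θ - (α + 2 * m * y) := by ring
    rw [e3, e4, this]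
  have h1 := hP.intervalIntegral_add_eq y 0
  rw [zero_add] at h1
  rw [← h1]
  have h2 := intervalIntegral.integral_comp_add_right (a := (0 : ℝ)) (b := Real.pi)
    (fun θ : ℝ => Real.cos (2 * m * θ - α - 2 * m * y) * max (p θ - s * |Real.sin y|) 0) y
  rw [zero_add, add_comm Real.pi y] at h2
  rw [← h2]
  congr 1
  ext θ
  congr 2
  ring

theorem cont_EE {p : ℝ → ℝ} (hp : Continuous p) : Continuous (fun x : ℝ × ℝ => EE p x.1 x.2) := by
  unfold EE
  apply intervalIntegral.continuous_parametric_intervalIntegral_of_continuous'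
  unfold Function.uncurry
  fun_prop

theorem cont_ek (k s : ℝ) : Continuous (fun c : ℝ => ek k s c) := by
  unfold ek
  apply intervalIntegral.continuous_parametric_intervalIntegral_of_continuous'
  unfold Function.uncurry
  fun_prop

theorem EE_le {p : ℝ → ℝ} (hp : Continuous p) {M : ℝ} (hM : 0 < M)
    (hb : ∀ θ, p θ ≤ M) (θ : ℝ) {r : ℝ} (hr : M ≤ r) :
    EE p r θ ≤ Real.pi * M ^ 2 / (2 * r) := by
  have hpi := Real.pi_pos
  have hr0 : 0 < r := lt_of_lt_of_le hM hr
  have hc : Real.pi * M / (2 * r) ≤ Real.pi / 2 := by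
    rw [div_le_div_iff₀ (by positivity) (by positivity)]
    nlinarith
  have h1 := int_cut (fun x => M - 2 * r / Real.pi * x) (by fun_prop)
    (c := Real.pi * M / (2 * r)) (R := Real.pi / 2) (by positivity) hc
  rw [intervalIntegral.integral_sub (by simp) (by apply Continuous.intervalIntegrable; fun_prop),
    intervalIntegral.integral_const_mul] at h1
  have h2 : (fun z : ℝ => if |z| < Real.pi * M / (2 * r) then M - 2 * r / Real.pi * |z| else 0) =
      fun z => max (M - 2 * r / Real.pi * |z|) 0 := by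
    ext z
    split_ifs with h
    · rw [lt_div_iff₀ (by positivity)] at h
      rw [max_eq_left]
      have : 2 * r / Real.pi * |z| = |z| * (2 * r) / Real.pi := by ring
      rw [this, sub_nonneg, div_le_iff₀ hpi]
      linarith
    · push Not at h
      rw [div_le_iff₀ (by positivity)] at h
      rw [max_eq_right]
      have : 2 * r / Real.pi * |z| = |z| * (2 * r) / Real.pi := by ring
      rw [this, sub_nonpos, le_div_iff₀ hpi]
      linarith
  rw [h2] at h1
  have h3 : EE p r θ ≤ ∫ z in (-(Real.pi / 2))..(Real.pi / 2),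
      max (M - 2 * r / Real.pi * |z|) 0 := by
    unfold EE
    apply intervalIntegral.integral_mono_on (by linarith)
    · apply Continuous.intervalIntegrable; fun_prop
    · apply Continuous.intervalIntegrable; fun_prop
    · intro y hy
      apply max_le_max _ le_rfl
      have h4 := Real.mul_abs_le_abs_sin (abs_le.2 ⟨hy.1, hy.2⟩)
      have h5 : 2 * r / Real.pi * |y| ≤ r * |Real.sin y| := by
        have : 2 * r / Real.pi * |y| = r * (2 / Real.pi * |y|) := by ring
        rw [this]
        gcongr
      linarith [hb (θ + y)]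
  refine h3.trans (le_of_eq ?_)
  rw [h1]
  simp
  field_simp
  ring

theorem EE_le' {p : ℝ → ℝ} (hp : Continuous p) {M : ℝ} (hM : 0 < M)
    (hb : ∀ θ, p θ ≤ M) (θ : ℝ) {r : ℝ} (hr : 0 ≤ r) :
    EE p r θ ≤ Real.pi * M := by
  have hpi := Real.pi_pos
  have h3 : EE p r θ ≤ ∫ z in (-(Real.pi / 2))..(Real.pi / 2), M := by
    unfold EE
    apply intervalIntegral.integral_mono_on (by linarith)
    · apply Continuous.intervalIntegrable; fun_prop
    · apply Continuous.intervalIntegrable; fun_prop
    · intro y hy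
      apply max_le _ hM.le
      have : 0 ≤ r * |Real.sin y| := by positivity
      linarith [hb (θ + y)]
  refine h3.trans (le_of_eq ?_)
  simp

theorem exists_r {p : ℝ → ℝ} (hp : Continuous p) {M : ℝ} (hM : 0 < M)
    (hb : ∀ θ, p θ ≤ M) (θ : ℝ) {s : ℝ} (hs : Real.pi * M < s) :
    ∃ r, 0 < r ∧ r ≤ s ∧ 2 * r + EE p r θ = 2 * s ∧ s - Real.pi * M / 2 ≤ r := by
  have hpi := Real.pi_pos
  have hpM : 0 < Real.pi * M := by positivity
  have hcont : Continuous (fun r => 2 * r + EE p r θ) := by
    have : Continuous (fun r : ℝ => EE p r θ) :=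
      (cont_EE hp).comp (by fun_prop : Continuous fun r : ℝ => (r, θ))
    fun_prop
  have h0 : 2 * (0 : ℝ) + EE p 0 θ ≤ 2 * s := by
    have := EE_le' hp hM hb θ (le_refl (0 : ℝ))
    linarith
  have h1 : 2 * s ≤ 2 * s + EE p s θ := by linarith [EE_nonneg p s θ]
  obtain ⟨r, hr, hre⟩ := intermediate_value_Icc (f := fun r => 2 * r + EE p r θ)
    (by linarith : (0 : ℝ) ≤ s) hcont.continuousOn ⟨h0, h1⟩
  simp only at hre
  have h4 := EE_le' hp hM hb θ hr.1
  have h5 : s - Real.pi * M / 2 ≤ r := by linarith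
  exact ⟨r, by linarith, hr.2, hre, h5⟩

end Pool.Agent.Q155.Mel
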